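import Pool.Agent.H94.CD.Tree
import Pool.Agent.Helper22.CD.Inv2
import Pool.Agent.Helper3.CD.Fkg

/-!
# CD, frame E, piece E3: the first moment

PROOF of `sum_kept_ge`. `kept (b + 1) (child n V j) = kept b V ∩ Ev univ (bad sh τ V (child n V j))`
(`badP` of `b + 1`, `par_child`), so by `fkg` (measurability `measurableSet_kept`, `measR_bad` of Helper22/CD/MMain)
and `prob_bad` (Helper22/CD/Inv2)
`P(kept (b + 1) (child n V j)) ≥ P(kept b V) * π j`, `π j = P(Ev univ (bad sh τ V0 (child n V0 j)))`.
Sum over `V ∈ desc n (rootV n) b` and `j` (`sum_desc`): the sum for `b + 1` is at least the sum for `b`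
times `∑ π j`.  For `b = 0` the only square is `rootV n`, and `kept 0 = Ev univ (Rootr sh n)` (`badP` of `0` is
`False`).  `law r ν = soup (fun _ => r) (fun _ => ν)` by `rfl`; use `have := hS.prob`.
-/

set_option autoImplicit false

namespace Pool.Agent.H94.CD

open MeasureTheory ProbabilityTheory Metric Set
open scoped ENNReal NNReal
open Pool.Agent.Helper3.CD Pool.Agent.Helper16.CD

variable {E : Type} [MeasurableSpace E] {ν : Measure E} {sh : E → Set Plane}

omit [MeasurableSpace E] in
private theorem E3_kept_zero (sh : E → Set Plane) (n : ℕ) (τ : ℝ) (V : Idx) :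
    kept sh n τ 0 V = Ev univ (Rootr sh n) := by
  unfold kept
  congr 1
  funext l
  simp only [badP, or_false]

omit [MeasurableSpace E] in
private theorem E3_kept_succ (sh : E → Set Plane) (n : ℕ) (τ : ℝ) (b : ℕ) (V : Idx) (j : J n) :
    kept sh n τ (b + 1) (child n V j) =
      kept sh n τ b V ∩ Ev univ (bad sh τ V (child n V j)) := by
  ext w
  unfold kept
  simp only [badP, par_child]
  constructor
  · intro hw
    refine ⟨fun l hl hR => hw l hl ?_, fun l hl hR => hw l hl (Or.inr (Or.inr hR))⟩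
    rcases hR with hR | hR
    · exact Or.inl hR
    · exact Or.inr (Or.inl hR)
  · rintro ⟨h1, h2⟩ l hl (hR | hR | hR)
    · exact h1 l hl (Or.inl hR)
    · exact h1 l hl (Or.inr hR)
    · exact h2 l hl hR

private theorem E3_step (hS : IsShape ν sh) {n : ℕ} {τ : ℝ} (hτ : 0 < τ) (r : ℝ≥0) (b : ℕ)
    (V : Idx) (j : J n) :
    (law r ν).real (kept sh n τ b V) * (law r ν).real (Ev univ (bad sh τ V0 (child n V0 j))) ≤
      (law r ν).real (kept sh n τ (b + 1) (child n V j)) := by
  have := hS.prob
  have h1 : (law r ν).real (Ev univ (bad sh τ V (child n V j))) =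
      (law r ν).real (Ev univ (bad sh τ V0 (child n V0 j))) := by
    unfold Measure.real
    rw [Pool.Agent.Helper22.CD.prob_bad hS r hτ n V j]
  rw [← h1, E3_kept_succ]
  exact fkg_real (fun _ : Idx => r) (fun _ => ν) _ _
    (Pool.Agent.Helper22.CD.measurableSet_kept hS n hτ b V)
    (measurableSet_Ev _ _ (Pool.Agent.Helper22.CD.measR_bad hS hτ _ _))
    (decr_Ev _ _) (decr_Ev _ _)

theorem sum_kept_ge (hS : IsShape ν sh) {n : ℕ} {τ : ℝ} (hτ : 0 < τ) {r : ℝ≥0}
    (hR : 1 / 2 ≤ (law r ν).real (Ev univ (Rootr sh n))) (b : ℕ) :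
    1 / 2 * (∑ j : J n, (law r ν).real (Ev univ (bad sh τ V0 (child n V0 j)))) ^ b ≤
      ∑ V ∈ desc n (rootV n) b, (law r ν).real (kept sh n τ b V) := by
  have := hS.prob
  induction b with
  | zero =>
    rw [pow_zero, mul_one, desc, Finset.sum_singleton, E3_kept_zero]
    exact hR
  | succ b ih =>
    rw [sum_desc, pow_succ, ← mul_assoc]
    calc 1 / 2 * (∑ j : J n, (law r ν).real (Ev univ (bad sh τ V0 (child n V0 j)))) ^ b *
          ∑ j : J n, (law r ν).real (Ev univ (bad sh τ V0 (child n V0 j)))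
        ≤ (∑ V ∈ desc n (rootV n) b, (law r ν).real (kept sh n τ b V)) *
          ∑ j : J n, (law r ν).real (Ev univ (bad sh τ V0 (child n V0 j))) :=
          mul_le_mul_of_nonneg_right ih (Finset.sum_nonneg fun _ _ => measureReal_nonneg)
      _ = ∑ V ∈ desc n (rootV n) b, ∑ j : J n, (law r ν).real (kept sh n τ b V) *
          (law r ν).real (Ev univ (bad sh τ V0 (child n V0 j))) := by
          rw [Finset.sum_mul]
          exact Finset.sum_congr rfl fun _ _ => Finset.mul_sum _ _ _
      _ ≤ ∑ V ∈ desc n (rootV n) b, ∑ j : J n,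
          (law r ν).real (kept sh n τ (b + 1) (child n V j)) :=
          Finset.sum_le_sum fun V _ => Finset.sum_le_sum fun j _ => E3_step hS hτ r b V j

end Pool.Agent.H94.CD
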