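import Pool.Agent.Helper16.CD.Defs

/-!
# CD, frame E, piece E5a: a finite cover by open sets from a null Hausdorff measure

PROOF. `hausdorffMeasure_apply`: `μH[s] K = ⨆ (r > 0), ⨅ (t : ℕ → Set Plane) (K ⊆ ⋃ t n)
(∀ n, ediam (t n) ≤ r), ∑' n, ⨆ (t n).Nonempty, ediam (t n) ^ s`; with `r = 1` the infimum is `0`, so
there is a cover `t` with `∑' ... < ENNReal.ofReal (ε / 2)`.  Put `a n = diam (t n)`, and choose
`δ n > 0` with `(a n + 2 * δ n) ^ s ≤ a n ^ s + (ε / 4) * (1 / 2) ^ (n + 1)` (continuity of the power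
at `a n`).  Let `U n = thickening (δ n) (t n)` (open, contains `t n`, empty if `t n` is empty),
`d n = a n + 2 * δ n`.  Compactness of `K` gives a finite set `F` of indices with `K ⊆ ⋃ n ∈ F, U n`;
keep only the indices with `t n` nonempty.  The sum of `d n ^ s` over `F` is at most
`ε / 2 + ε / 4 < ε`.
-/

set_option autoImplicit false

namespace Pool.Agent.H94.CD

open MeasureTheory ProbabilityTheory Metric Set
open scoped ENNReal NNReal
open Pool.Agent.Helper3.CD Pool.Agent.Helper16.CD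

private theorem exists_delta (a s η : ℝ) (hs : 0 < s) (hη : 0 < η) :
    ∃ δ : ℝ, 0 < δ ∧ (a + 2 * δ) ^ s < a ^ s + η := by
  have hc : Continuous (fun δ : ℝ => (a + 2 * δ) ^ s) :=
    (continuous_const.add (continuous_const.mul continuous_id)).rpow_const
      (fun _ => Or.inr hs.le)
  have h0 : (fun δ : ℝ => (a + 2 * δ) ^ s) 0 < a ^ s + η := by
    simp only [mul_zero, add_zero]
    linarith
  have h1 : ∀ᶠ δ in nhds (0 : ℝ), (a + 2 * δ) ^ s < a ^ s + η :=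
    (hc.tendsto 0).eventually_lt_const h0
  have h2 : ∀ᶠ δ in nhdsWithin (0 : ℝ) (Ioi 0), (a + 2 * δ) ^ s < a ^ s + η ∧ δ ∈ Ioi (0 : ℝ) :=
    (h1.filter_mono nhdsWithin_le_nhds).and self_mem_nhdsWithin
  obtain ⟨δ, hδ, hpos⟩ := h2.exists
  exact ⟨δ, hpos, hδ⟩

theorem exists_cover (K : Set Plane) (hK : IsCompact K) (s : ℝ) (hs : 0 < s)
    (h0 : μH[s] K = 0) (ε : ℝ) (hε : 0 < ε) :
    ∃ (F : Finset ℕ) (U : ℕ → Set Plane) (d : ℕ → ℝ), (∀ i, IsOpen (U i)) ∧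
      K ⊆ ⋃ i ∈ F, U i ∧ (∀ i, 0 < d i) ∧ (∀ i ∈ F, ∀ x ∈ U i, ∀ y ∈ U i, dist x y ≤ d i) ∧
      ∑ i ∈ F, d i ^ s < ε := by
  classical
  have h1 : (⨅ (t : ℕ → Set Plane) (_ : K ⊆ ⋃ n, t n) (_ : ∀ n, ediam (t n) ≤ 1),
      ∑' n, ⨆ _ : (t n).Nonempty, ediam (t n) ^ s) = 0 := by
    have h := h0
    rw [Measure.hausdorffMeasure_apply] at h
    simp only [ENNReal.iSup_eq_zero] at h
    exact h 1 one_pos
  have h2 : (⨅ (t : ℕ → Set Plane) (_ : K ⊆ ⋃ n, t n) (_ : ∀ n, ediam (t n) ≤ 1),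
      ∑' n, ⨆ _ : (t n).Nonempty, ediam (t n) ^ s) < ENNReal.ofReal (ε / 2) := by
    rw [h1]
    exact ENNReal.ofReal_pos.2 (by positivity)
  obtain ⟨t, ht⟩ := iInf_lt_iff.1 h2
  obtain ⟨hcov, ht⟩ := iInf_lt_iff.1 ht
  obtain ⟨hdiam, ht⟩ := iInf_lt_iff.1 ht
  have hne : ∀ n, ediam (t n) ≠ ⊤ := fun n => ne_top_of_le_ne_top ENNReal.one_ne_top (hdiam n)
  set a : ℕ → ℝ := fun n => (ediam (t n)).toReal with ha
  have ha0 : ∀ n, 0 ≤ a n := fun n => ENNReal.toReal_nonneg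
  have hη : ∀ n : ℕ, 0 < ε / 4 / 2 / 2 ^ n := fun n => by positivity
  choose δ hδ hδs using fun n => exists_delta (a n) s _ hs (hη n)
  obtain ⟨F, hF⟩ := hK.elim_finite_subcover (fun n => thickening (δ n) (t n))
    (fun n => isOpen_thickening) (fun x hx => by
      obtain ⟨n, hn⟩ := mem_iUnion.1 (hcov hx)
      exact mem_iUnion.2 ⟨n, self_subset_thickening (hδ n) _ hn⟩)
  refine ⟨F.filter fun n => (t n).Nonempty, fun n => thickening (δ n) (t n),
    fun n => a n + 2 * δ n, fun n => isOpen_thickening, ?_, ?_, ?_, ?_⟩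
  · intro x hx
    obtain ⟨n, hn, hxn⟩ := mem_iUnion₂.1 (hF hx)
    refine mem_iUnion₂.2 ⟨n, ?_, hxn⟩
    rw [Finset.mem_filter]
    obtain ⟨z, hz, _⟩ := mem_thickening_iff.1 hxn
    exact ⟨hn, ⟨z, hz⟩⟩
  · intro n
    have h3 := ha0 n
    have h4 := hδ n
    linarith
  · intro n _ x hx y hy
    obtain ⟨x', hx', hxx⟩ := mem_thickening_iff.1 hx
    obtain ⟨y', hy', hyy⟩ := mem_thickening_iff.1 hy
    have h3 : dist x' y' ≤ a n := by
      have h4 : edist x' y' ≤ ediam (t n) := edist_le_ediam_of_mem hx' hy'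
      rw [dist_edist]
      exact ENNReal.toReal_mono (hne n) h4
    have h4 := dist_triangle4 x x' y' y
    rw [dist_comm y' y] at h4
    linarith
  · set F' := F.filter fun n => (t n).Nonempty with hF'
    have h3 : ∑ n ∈ F', a n ^ s < ε / 2 := by
      have h4 : ∑ n ∈ F', ENNReal.ofReal (a n ^ s) < ENNReal.ofReal (ε / 2) := by
        refine lt_of_le_of_lt ?_ ht
        refine le_trans ?_ (ENNReal.sum_le_tsum F')
        refine Finset.sum_le_sum fun n hn => ?_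
        have hnn : (t n).Nonempty := (Finset.mem_filter.1 hn).2
        rw [← ENNReal.ofReal_rpow_of_nonneg (ha0 n) hs.le, ha]
        simp only
        rw [ENNReal.ofReal_toReal (hne n)]
        exact le_iSup (fun _ : (t n).Nonempty => ediam (t n) ^ s) hnn
      rw [← ENNReal.ofReal_sum_of_nonneg (fun n _ => Real.rpow_nonneg (ha0 n) s)] at h4
      exact (ENNReal.ofReal_lt_ofReal_iff (by positivity)).1 h4
    have h5 : ∑ n ∈ F', ε / 4 / 2 / 2 ^ n ≤ ε / 4 :=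
      sum_le_hasSum F' (fun n _ => (hη n).le) (hasSum_geometric_two' (ε / 4))
    calc ∑ n ∈ F', (a n + 2 * δ n) ^ s ≤ ∑ n ∈ F', (a n ^ s + ε / 4 / 2 / 2 ^ n) :=
          Finset.sum_le_sum fun n _ => (hδs n).le
      _ = ∑ n ∈ F', a n ^ s + ∑ n ∈ F', ε / 4 / 2 / 2 ^ n := Finset.sum_add_distrib
      _ < ε := by linarith

end Pool.Agent.H94.CD
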