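import Pool.Agent.H94.CD.Tree

/-!
# CD, frame E, piece E5b: a small cover contradicts the energy bound (one level)

PROOF. For `V ∈ A` choose `i V ∈ F` with `cell V ∩ U (i V)` nonempty, and `x V` in it.  Let
`B = 8 ^ n ≥ 8`.

CLAIM: if `V, W ∈ A` and `i V = i W = i` then `d i ^ (-s) ≤ B ^ (2 * s) * B ^ (s * lastTouch n b V W)`.
We have `dist (x V) (x W) ≤ d i`.  If `d i ≥ B ^ (-1)` the claim holds as
`d i ^ (-s) ≤ B ^ s` and the right side is at least `B ^ (2 * s)`.  Otherwise let `k` be the largest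
`k ≤ b` with `d i < B ^ (-(k + 1))` (`k = 0` satisfies it; `k < b` or `k = b`; as `B ^ (-(b + 1)) ≤ d i`
by `hb`, in fact `k < b`).  So `B ^ (-(k + 2)) ≤ d i`, that is `d i ^ (-s) ≤ B ^ (s * (k + 2))`.  The
ancestors `V', W'` of depth `k` (level `3 * n * (k + 1)`, side `B ^ (-(k + 1))`) contain `x V`, `x W`
(`cell_anc`), whose distance is less than the side, so `Touch V' W'` (`mem_cell`: the first index of
`W'` is less than the first index of `V'` plus `2`, and so on).  So `k ≤ lastTouch n b V W` by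
`le_lastTouch`, and the claim follows.

Then with `m i` = number of `V ∈ A` with `i V = i`: the energy is at least
`∑ i ∈ F, m i ^ 2 * B ^ (-2 * s) * d i ^ (-s)` and by Cauchy-Schwarz
`(card A) ^ 2 = (∑ m i) ^ 2 ≤ (∑ m i ^ 2 * d i ^ (-s)) * (∑ d i ^ s)`
(`Finset.sum_div_sq_le_sum_sq_div` or `Finset.inner_mul_le_norm_mul_norm`, `sum_mul_sq_le_sq_mul_sq`).
-/

set_option autoImplicit false

namespace Pool.Agent.H94.CD

open MeasureTheory ProbabilityTheory Metric Set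
open scoped ENNReal NNReal
open Pool.Agent.Helper3.CD Pool.Agent.Helper16.CD

/-- the energy of a finite set of squares of depth `b` -/
noncomputable def energy (n b : ℕ) (s : ℝ) (A : Finset Idx) : ℝ :=
  ∑ V ∈ A, ∑ W ∈ A, ((8 : ℝ) ^ n) ^ (s * lastTouch n b V W)

private theorem E5b_side (n k : ℕ) (V : Idx) (h : V ∈ desc n (rootV n) k) :
    side V = (1 / (8 : ℝ) ^ n) ^ (k + 1) := by
  have h1 := ((mem_desc_anc n k (rootV n) V).1 h).1
  have h2 : V.1 = 3 * n * (k + 1) := by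
    rw [h1]
    change 3 * n + 3 * n * k = _
    ring
  have h3 : ((1 : ℝ) / 2) ^ 3 = 1 / 8 := by norm_num
  unfold side
  rw [h2, pow_mul, pow_mul, h3, one_div_pow]

private theorem E5b_index {S : ℝ} (hS : 0 < S) (v w : ℤ) (a b : ℝ) (ha1 : S * v ≤ a)
    (ha2 : a ≤ S * (v + 1)) (hb1 : S * w ≤ b) (hb2 : b ≤ S * (w + 1)) (hab : |a - b| < S) :
    |v - w| ≤ 1 := by
  rw [abs_lt] at hab
  have h1 : (v : ℝ) - w < 2 := by
    by_contra hcon
    push Not at hcon
    have h2 : S * 2 ≤ S * ((v : ℝ) - w) := by gcongr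
    linarith
  have h3 : (w : ℝ) - v < 2 := by
    by_contra hcon
    push Not at hcon
    have h2 : S * 2 ≤ S * ((w : ℝ) - v) := by gcongr
    linarith
  have h4 : v - w < 2 := by exact_mod_cast h1
  have h5 : w - v < 2 := by exact_mod_cast h3
  rw [abs_le]
  omega

private theorem E5b_touch {V W : Idx} {S : ℝ} (hS : 0 < S) (hV : side V = S) (hW : side W = S)
    {x y : Plane} (hx : x ∈ cell V) (hy : y ∈ cell W) (hd : dist x y < S) : Touch V W := by
  rw [mem_cell, hV] at hx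
  rw [mem_cell, hW] at hy
  obtain ⟨⟨a1, a2⟩, a3, a4⟩ := hx
  obtain ⟨⟨b1, b2⟩, b3, b4⟩ := hy
  have h1 := le_max_left (dist x.1 y.1) (dist x.2 y.2)
  have h2 := le_max_right (dist x.1 y.1) (dist x.2 y.2)
  rw [← Prod.dist_eq] at h1 h2
  rw [Real.dist_eq] at h1 h2
  exact ⟨E5b_index hS _ _ _ _ a1 a2 b1 b2 (h1.trans_lt hd),
    E5b_index hS _ _ _ _ a3 a4 b3 b4 (h2.trans_lt hd)⟩

private theorem E5b_claim (n : ℕ) (hn : 1 ≤ n) (b : ℕ) {V W : Idx}
    (hV : V ∈ desc n (rootV n) b) (hW : W ∈ desc n (rootV n) b) {x y : Plane} (hx : x ∈ cell V)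
    (hy : y ∈ cell W) {d : ℝ} (hd : dist x y ≤ d) (hb : (1 / (8 : ℝ) ^ n) ^ (b + 1) ≤ d) :
    (1 / (8 : ℝ) ^ n) ^ (lastTouch n b V W + 2) ≤ d := by
  by_contra hcon
  push Not at hcon
  have hq0 : (0 : ℝ) < 1 / (8 : ℝ) ^ n := by positivity
  have hq1 : 1 / (8 : ℝ) ^ n < 1 := by
    rw [div_lt_one (by positivity)]
    exact one_lt_pow₀ (by norm_num) (by omega)
  have h1 : lastTouch n b V W + 2 < b + 1 := by
    by_contra h2
    push Not at h2
    have h3 : (1 / (8 : ℝ) ^ n) ^ (lastTouch n b V W + 2) ≤ (1 / (8 : ℝ) ^ n) ^ (b + 1) :=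
      pow_le_pow_of_le_one hq0.le hq1.le h2
    linarith
  set k := lastTouch n b V W + 1 with hk
  have hkb : k ≤ b := by omega
  have e1 : k + (b - k) = b := by omega
  have hV1 : V ∈ desc n (rootV n) (k + (b - k)) := by rwa [e1]
  have hW1 : W ∈ desc n (rootV n) (k + (b - k)) := by rwa [e1]
  have hV2 := anc_mem hV1
  have hW2 := anc_mem hW1
  have h3 : Touch (anc n (b - k) V) (anc n (b - k) W) :=
    E5b_touch (pow_pos hq0 (k + 1)) (E5b_side n k _ hV2) (E5b_side n k _ hW2)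
      (cell_anc hV1 hx) (cell_anc hW1 hy)
      (hd.trans_lt hcon)
  have h4 := le_lastTouch hkb h3
  omega

theorem card_sq_le (n : ℕ) (hn : 1 ≤ n) (s : ℝ) (hs : 0 < s) (b : ℕ) (A : Finset Idx)
    (hA : A ⊆ desc n (rootV n) b) (F : Finset ℕ) (U : ℕ → Set Plane) (d : ℕ → ℝ)
    (hd : ∀ i, 0 < d i) (hU : ∀ i ∈ F, ∀ x ∈ U i, ∀ y ∈ U i, dist x y ≤ d i)
    (hb : ∀ i ∈ F, (1 / (8 : ℝ) ^ n) ^ (b + 1) ≤ d i)
    (hcov : ∀ V ∈ A, ∃ i ∈ F, (cell V ∩ U i).Nonempty) :
    ((A.card : ℝ)) ^ 2 ≤ ((8 : ℝ) ^ n) ^ (2 * s) * energy n b s A * ∑ i ∈ F, d i ^ s := by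
  classical
  choose! i hiF hi using hcov
  have hB : (0 : ℝ) < (8 : ℝ) ^ n := by positivity
  have hclaim : ∀ V ∈ A, ∀ W ∈ A, i V = i W →
      d (i V) ^ (-s) ≤ ((8 : ℝ) ^ n) ^ (2 * s) * ((8 : ℝ) ^ n) ^ (s * lastTouch n b V W) := by
    intro V hV W hW hVW
    obtain ⟨x, hx1, hx2⟩ := hi V hV
    obtain ⟨y, hy1, hy2⟩ := hi W hW
    rw [← hVW] at hy2
    have h1 := E5b_claim n hn b (hA hV) (hA hW) hx1 hy1 (hU _ (hiF V hV) x hx2 y hy2)
      (hb _ (hiF V hV))
    have h2 : d (i V) ^ (-s) ≤ ((1 / (8 : ℝ) ^ n) ^ (lastTouch n b V W + 2)) ^ (-s) :=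
      Real.rpow_le_rpow_of_nonpos (by positivity) h1 (by linarith)
    refine h2.trans (le_of_eq ?_)
    rw [one_div, inv_pow, Real.inv_rpow (by positivity), Real.rpow_neg (by positivity), inv_inv,
      ← Real.rpow_natCast, ← Real.rpow_mul hB.le, ← Real.rpow_add hB]
    congr 1
    push_cast
    ring
  -- Cauchy-Schwarz
  set m : ℕ → ℝ := fun a => ((A.filter fun V => i V = a).card : ℝ) with hm
  have hcard : (A.card : ℝ) = ∑ a ∈ F, m a := by
    rw [Finset.card_eq_sum_card_fiberwise (f := i) (t := F) (fun V hV => hiF V hV)]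
    push_cast
    rfl
  have hCS : (∑ a ∈ F, m a) ^ 2 ≤ (∑ a ∈ F, m a ^ 2 * d a ^ (-s)) * ∑ a ∈ F, d a ^ s := by
    refine Finset.sum_sq_le_sum_mul_sum_of_sq_le_mul F ?_ ?_ ?_
    · intro a _
      exact mul_nonneg (sq_nonneg _) (Real.rpow_nonneg (hd a).le _)
    · intro a _
      exact Real.rpow_nonneg (hd a).le _
    · intro a _
      refine le_of_eq ?_
      rw [mul_assoc, ← Real.rpow_add (hd a), neg_add_cancel, Real.rpow_zero, mul_one]
  have hE : ∑ a ∈ F, m a ^ 2 * d a ^ (-s) ≤ ((8 : ℝ) ^ n) ^ (2 * s) * energy n b s A := by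
    have h1 : ∀ a ∈ F, m a ^ 2 * d a ^ (-s) ≤ ((8 : ℝ) ^ n) ^ (2 * s) *
        ∑ V ∈ A.filter (fun V => i V = a), ∑ W ∈ A, ((8 : ℝ) ^ n) ^ (s * lastTouch n b V W) := by
      intro a _
      have h2 : m a ^ 2 * d a ^ (-s) = ∑ V ∈ A.filter (fun V => i V = a),
          ∑ W ∈ A.filter (fun V => i V = a), d a ^ (-s) := by
        rw [Finset.sum_const, Finset.sum_const, nsmul_eq_mul, nsmul_eq_mul, hm]
        ring
      rw [h2, Finset.mul_sum]
      refine Finset.sum_le_sum fun V hV => ?_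
      rw [Finset.mem_filter] at hV
      rw [Finset.mul_sum]
      calc ∑ W ∈ A.filter (fun V => i V = a), d a ^ (-s)
          ≤ ∑ W ∈ A.filter (fun V => i V = a),
            ((8 : ℝ) ^ n) ^ (2 * s) * ((8 : ℝ) ^ n) ^ (s * lastTouch n b V W) := by
            refine Finset.sum_le_sum fun W hW => ?_
            rw [Finset.mem_filter] at hW
            have h3 := hclaim V hV.1 W hW.1 (hV.2.trans hW.2.symm)
            rwa [hV.2] at h3
        _ ≤ ∑ W ∈ A, ((8 : ℝ) ^ n) ^ (2 * s) * ((8 : ℝ) ^ n) ^ (s * lastTouch n b V W) := by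
            refine Finset.sum_le_sum_of_subset_of_nonneg (Finset.filter_subset _ _) ?_
            intro W _ _
            positivity
    refine (Finset.sum_le_sum h1).trans (le_of_eq ?_)
    rw [← Finset.mul_sum]
    congr 1
    unfold energy
    exact Finset.sum_fiberwise_of_maps_to (fun V hV => hiF V hV) _
  rw [hcard]
  refine hCS.trans ?_
  exact mul_le_mul_of_nonneg_right hE
    (Finset.sum_nonneg fun a _ => Real.rpow_nonneg (hd a).le _)

end Pool.Agent.H94.CD
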