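import Pool.Agent.H94.CD.E5a
import Pool.Agent.H94.CD.E5b

/-!
# CD, frame E, piece E5c: positive Hausdorff measure from the energy bound

PROOF. Let `K = ⋂ b, ⋃ V ∈ A b, cell V`, an intersection of a decreasing sequence of compact sets
`L b = ⋃ V ∈ A b, cell V` (`cell_par`, `hpar`; the level of `V ∈ A (b + 1)` is at least `3 * n`
by `mem_desc`).  Suppose `μH[s] K = 0`.  Take `ε = c * (8 ^ n) ^ (-2 * s) ` in `exists_cover`.
The open set `O = ⋃ i ∈ F, U i` contains `K`, so `L b ⊆ O` for all large `b`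
(`IsCompact.elim_directed_family_closed_of_isCompact` or
`exists_subset_nhds_of_isCompact`, with the antitone family `L`).  Also `(1 / 8 ^ n) ^ (b + 1) ≤ d i`
for all `i ∈ F` for large `b`.  Take such a `b` with the property `hf`.
Each cell is nonempty (`mem_cell`), so `card_sq_le` applies: with `N = card (A b) > 0`,
`N ^ 2 ≤ (8 ^ n) ^ (2 * s) * energy * ∑ d i ^ s < (8 ^ n) ^ (2 * s) * energy * ε = c * energy ≤ N ^ 2`
(the energy is positive), a contradiction.
-/

set_option autoImplicit false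

namespace Pool.Agent.H94.CD

open MeasureTheory ProbabilityTheory Metric Set Filter
open scoped ENNReal NNReal
open Pool.Agent.Helper3.CD Pool.Agent.Helper16.CD

private theorem E5c_compact (V : Idx) : IsCompact (cell V) := by
  unfold cell big
  exact isCompact_closedBall _ _

private theorem E5c_nonempty (V : Idx) : (cell V).Nonempty := by
  refine ⟨ctr V, ?_⟩
  unfold cell big
  apply mem_closedBall_self
  have h := side_pos V
  linarith

private theorem E5c_anti (n : ℕ) (A : ℕ → Finset Idx)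
    (hA : ∀ b, A b ⊆ desc n (rootV n) b) (hpar : ∀ b, ∀ V ∈ A (b + 1), par n V ∈ A b) :
    Antitone fun b => ⋃ V ∈ A b, cell V := by
  apply antitone_nat_of_succ_le
  intro b x hx
  obtain ⟨V, hV, hxV⟩ := mem_iUnion₂.1 hx
  refine mem_iUnion₂.2 ⟨par n V, hpar b V hV, ?_⟩
  have h1 := level_desc (hA (b + 1) hV)
  have h2 : 3 * n ≤ V.1 := by
    rw [h1]
    exact Nat.le_add_right _ _
  exact cell_par h2 hxV

private theorem E5c_energy_pos (n b : ℕ) (s : ℝ) (A : Finset Idx) (h : 0 < A.card) :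
    0 < energy n b s A := by
  have hne : A.Nonempty := Finset.card_pos.1 h
  unfold energy
  apply Finset.sum_pos _ hne
  intro V _
  apply Finset.sum_pos _ hne
  intro W _
  positivity

theorem hausdorff_pos (n : ℕ) (hn : 1 ≤ n) (s : ℝ) (hs : 0 < s) (A : ℕ → Finset Idx)
    (hA : ∀ b, A b ⊆ desc n (rootV n) b) (hpar : ∀ b, ∀ V ∈ A (b + 1), par n V ∈ A b)
    (c : ℝ) (hc : 0 < c)
    (hf : ∃ᶠ b in atTop, 0 < (A b).card ∧ c * energy n b s (A b) ≤ ((A b).card : ℝ) ^ 2) :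
    μH[s] (⋂ b, ⋃ V ∈ A b, cell V) ≠ 0 := by
  intro h0
  set L : ℕ → Set Plane := fun b => ⋃ V ∈ A b, cell V with hL
  have hLc : ∀ b, IsCompact (L b) := fun b =>
    (A b).isCompact_biUnion fun V _ => E5c_compact V
  have hanti : Antitone L := E5c_anti n A hA hpar
  have hKc : IsCompact (⋂ b, L b) :=
    (hLc 0).of_isClosed_subset (isClosed_iInter fun b => (hLc b).isClosed) (iInter_subset L 0)
  have hB : (0 : ℝ) < (8 : ℝ) ^ n := by positivity
  have hBs : (0 : ℝ) < ((8 : ℝ) ^ n) ^ (2 * s) := by positivity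
  obtain ⟨F, U, d, hUo, hcovK, hdpos, hUd, hsum⟩ :=
    exists_cover (⋂ b, L b) hKc s hs h0 (c / ((8 : ℝ) ^ n) ^ (2 * s)) (by positivity)
  have hO : IsOpen (⋃ i ∈ F, U i) := isOpen_biUnion fun i _ => hUo i
  have hev1 : ∀ᶠ b in atTop, L b ⊆ ⋃ i ∈ F, U i := by
    obtain ⟨b0, hb0⟩ := exists_subset_nhds_of_isCompact (V := L)
      hanti.directed_ge hLc (U := ⋃ i ∈ F, U i)
      (fun x hx => hO.mem_nhds (hcovK hx))
    exact eventually_atTop.2 ⟨b0, fun b hb => (hanti hb).trans hb0⟩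
  have hev2 : ∀ᶠ b : ℕ in atTop, ∀ i ∈ F, (1 / (8 : ℝ) ^ n) ^ (b + 1) ≤ d i := by
    rw [Finset.eventually_all]
    intro i _
    have hlt : 1 / (8 : ℝ) ^ n < 1 := by
      rw [div_lt_one hB]
      exact one_lt_pow₀ (by norm_num) (by omega)
    have ht := tendsto_pow_atTop_nhds_zero_of_lt_one (by positivity) hlt
    have ht2 := (tendsto_add_atTop_iff_nat 1).2 ht
    exact (ht2.eventually_lt_const (hdpos i)).mono fun b hb => hb.le
  obtain ⟨b, ⟨hcard, hen⟩, hLb, hdb⟩ := (hf.and_eventually (hev1.and hev2)).exists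
  have hcov : ∀ V ∈ A b, ∃ i ∈ F, (cell V ∩ U i).Nonempty := by
    intro V hV
    obtain ⟨x, hx⟩ := E5c_nonempty V
    obtain ⟨i, hi, hxi⟩ := mem_iUnion₂.1 (hLb (mem_iUnion₂.2 ⟨V, hV, hx⟩))
    exact ⟨i, hi, x, hx, hxi⟩
  have hkey := card_sq_le n hn s hs b (A b) (hA b) F U d hdpos hUd hdb hcov
  have hE := E5c_energy_pos n b s (A b) hcard
  have h1 : ((8 : ℝ) ^ n) ^ (2 * s) * energy n b s (A b) * ∑ i ∈ F, d i ^ s <
      ((8 : ℝ) ^ n) ^ (2 * s) * energy n b s (A b) * (c / ((8 : ℝ) ^ n) ^ (2 * s)) :=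
    mul_lt_mul_of_pos_left hsum (by positivity)
  have h2 : ((8 : ℝ) ^ n) ^ (2 * s) * energy n b s (A b) * (c / ((8 : ℝ) ^ n) ^ (2 * s)) =
      c * energy n b s (A b) := by
    field_simp
  linarith

end Pool.Agent.H94.CD
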