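import Mathlib

/-!
# CD, frame E, piece E5p: second moment method, infinitely often

PROOF. Fix `b`, write `N`, `F` for `N b`, `En b`, `m = ∫ N > 0`; `N ^ 2 ≤ F` so `N` is square integrable,
`∫ N ^ 2 ≤ C * m ^ 2`; `C > 0` (even `C ≥ 1`).  Let `S = {m / 2 ≤ N}`.  Then
`m = ∫ N ≤ m / 2 + ∫ N 1_S`, so `m / 2 ≤ ∫ N 1_S ≤ √(∫ N ^ 2) √(P S)` (Cauchy-Schwarz;
without roots: for all `t > 0`, `N 1_S ≤ (t / 2) N ^ 2 + (1 / (2 t)) 1_S`, so
`m / 2 ≤ (t / 2) C m ^ 2 + P S / (2 t)`, and `t = 1 / (2 C m)` gives `P S ≥ 1 / (4 C)`).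
Markov: `P {8 * C ^ 2 * m ^ 2 ≤ F} ≤ 1 / (8 C)` (`mul_meas_ge_le_integral_of_nonneg`).  So
`T b = S ∩ {F < 8 C ^ 2 m ^ 2}` has probability at least `1 / (8 C)`, and on `T b`:
`N > 0`, `F ≤ 8 C ^ 2 m ^ 2 ≤ 32 C ^ 2 N ^ 2`.  Take `c = 1 / (32 C ^ 2)`.
The event `{∃ᶠ b, ..} = ⋂ k, ⋃ b ≥ k, {..}` (`Filter.frequently_atTop`) is a decreasing limit of events
of probability at least `1 / (8 C)` (`tendsto_measure_iInter_atTop` or
`measure_iInter_eq_iInf`), so its probability is at least `1 / (8 C)`.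
-/

set_option autoImplicit false

namespace Pool.Agent.H94.CD

open MeasureTheory ProbabilityTheory Filter

private theorem E5p_step {Ω : Type*} [MeasurableSpace Ω] (P : Measure Ω) [IsProbabilityMeasure P]
    (N F : Ω → ℝ) (hN : Measurable N) (h0 : ∀ w, 0 ≤ N w) (hNE : ∀ w, (N w) ^ 2 ≤ F w)
    (hI : Integrable F P) (C : ℝ) (hC : ∫ w, F w ∂P ≤ C * (∫ w, N w ∂P) ^ 2)
    (hpos : 0 < ∫ w, N w ∂P) :
    0 < C ∧ 1 / (8 * C) ≤ P.real {w | 0 < N w ∧ 1 / (32 * C ^ 2) * F w ≤ (N w) ^ 2} := by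
  set m : ℝ := ∫ w, N w ∂P with hm
  have hNi : Integrable N P := by
    by_contra h
    rw [hm, integral_undef h] at hpos
    exact lt_irrefl _ hpos
  have hF0 : ∀ w, 0 ≤ F w := fun w => (sq_nonneg _).trans (hNE w)
  have hN2 : Integrable (fun w => (N w) ^ 2) P := by
    refine Integrable.mono' hI (hN.pow_const 2).aestronglyMeasurable (ae_of_all _ fun w => ?_)
    rw [Real.norm_eq_abs, abs_of_nonneg (sq_nonneg _)]
    exact hNE w
  have hsq : ∫ w, (N w) ^ 2 ∂P ≤ C * m ^ 2 := (integral_mono hN2 hI hNE).trans hC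
  set S : Set Ω := {w | m / 2 ≤ N w} with hS
  have hSm : MeasurableSet S := measurableSet_le measurable_const hN
  have hind : Integrable (S.indicator fun _ => (1 : ℝ)) P :=
    (integrable_const (1 : ℝ)).indicator hSm
  have key : ∀ t : ℝ, 0 < t → m ≤ m / 2 + t / 2 * (C * m ^ 2) + P.real S / (2 * t) := by
    intro t ht
    have h1 : ∀ w, N w ≤ m / 2 + t / 2 * (N w) ^ 2 + 1 / (2 * t) * S.indicator (fun _ => (1 : ℝ)) w := by
      intro w
      by_cases hw : w ∈ S
      · rw [Set.indicator_of_mem hw, mul_one]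
        have h2 : N w ≤ t / 2 * (N w) ^ 2 + 1 / (2 * t) := by
          have h3 : t / 2 * (N w) ^ 2 + 1 / (2 * t) - N w = (t * N w - 1) ^ 2 / (2 * t) := by
            field_simp
            ring
          have h4 : 0 ≤ (t * N w - 1) ^ 2 / (2 * t) := by positivity
          linarith
        have h5 : 0 ≤ m / 2 := by linarith
        linarith
      · rw [Set.indicator_of_notMem hw, mul_zero]
        have h2 : N w < m / 2 := not_le.1 hw
        have h3 : 0 ≤ t / 2 * (N w) ^ 2 := by positivity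
        linarith
    have hi1 : Integrable (fun w => m / 2 + t / 2 * (N w) ^ 2) P :=
      (integrable_const _).add (hN2.const_mul _)
    have hi2 : Integrable (fun w => 1 / (2 * t) * S.indicator (fun _ => (1 : ℝ)) w) P :=
      hind.const_mul _
    have h6 : m ≤ ∫ w, (m / 2 + t / 2 * (N w) ^ 2 +
        1 / (2 * t) * S.indicator (fun _ => (1 : ℝ)) w) ∂P :=
      integral_mono hNi (hi1.add hi2) h1
    rw [integral_add hi1 hi2, integral_add (integrable_const _) (hN2.const_mul _),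
      integral_const, integral_const_mul, integral_const_mul, integral_indicator_const _ hSm] at h6
    simp only [probReal_univ, smul_eq_mul, mul_one] at h6
    have h7 : t / 2 * ∫ w, (N w) ^ 2 ∂P ≤ t / 2 * (C * m ^ 2) :=
      mul_le_mul_of_nonneg_left hsq (by linarith)
    have h8 : 1 / (2 * t) * P.real S = P.real S / (2 * t) := by ring
    rw [h8] at h6
    linarith
  have hS1 : P.real S ≤ 1 := measureReal_le_one
  have hCpos : 0 < C := by
    by_contra hneg
    have hneg' : C ≤ 0 := not_lt.1 hneg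
    have h1 := key (2 / m) (by positivity)
    have h2 : 2 / m / 2 * (C * m ^ 2) ≤ 0 := by
      have : C * m ^ 2 ≤ 0 := mul_nonpos_of_nonpos_of_nonneg hneg' (sq_nonneg _)
      exact mul_nonpos_of_nonneg_of_nonpos (by positivity) this
    have h3 : P.real S / (2 * (2 / m)) ≤ m / 4 := by
      have h4 : P.real S / (2 * (2 / m)) = P.real S * (m / 4) := by
        field_simp
        ring
      rw [h4]
      have : P.real S * (m / 4) ≤ 1 * (m / 4) :=
        mul_le_mul_of_nonneg_right hS1 (by linarith)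
      linarith
    linarith
  refine ⟨hCpos, ?_⟩
  have hSlow : 1 / (4 * C) ≤ P.real S := by
    have h1 := key (1 / (2 * C * m)) (by positivity)
    have h2 : 1 / (2 * C * m) / 2 * (C * m ^ 2) = m / 4 := by
      field_simp
      ring
    have h3 : P.real S / (2 * (1 / (2 * C * m))) = P.real S * (C * m) := by
      field_simp
    rw [h2, h3] at h1
    have h4 : m / 4 ≤ P.real S * C * m := by nlinarith
    have h5 : 1 / 4 ≤ P.real S * C := by
      by_contra hlt
      have : P.real S * C * m < 1 / 4 * m := mul_lt_mul_of_pos_right (not_le.1 hlt) hpos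
      linarith
    rw [div_le_iff₀ (by positivity)]
    linarith
  set B : Set Ω := {w | 8 * C ^ 2 * m ^ 2 ≤ F w} with hB
  have hBup : P.real B ≤ 1 / (8 * C) := by
    have h1 := mul_meas_ge_le_integral_of_nonneg (ae_of_all P hF0) hI (8 * C ^ 2 * m ^ 2)
    have h2 : 8 * C ^ 2 * m ^ 2 * P.real B ≤ C * m ^ 2 := h1.trans hC
    have h3 : (8 * C * P.real B) * (C * m ^ 2) ≤ 1 * (C * m ^ 2) := by
      calc (8 * C * P.real B) * (C * m ^ 2) = 8 * C ^ 2 * m ^ 2 * P.real B := by ring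
        _ ≤ C * m ^ 2 := h2
        _ = 1 * (C * m ^ 2) := by ring
    have h4 : 8 * C * P.real B ≤ 1 := le_of_mul_le_mul_right h3 (by positivity)
    rw [le_div_iff₀ (by positivity)]
    linarith
  have hsub : S ⊆ {w | 0 < N w ∧ 1 / (32 * C ^ 2) * F w ≤ (N w) ^ 2} ∪ B := by
    intro w hw
    by_cases hwB : w ∈ B
    · exact Or.inr hwB
    · left
      have h1 : F w < 8 * C ^ 2 * m ^ 2 := not_le.1 hwB
      have h2 : m / 2 ≤ N w := hw
      have h3 : 0 < N w := lt_of_lt_of_le (by linarith) h2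
      refine ⟨h3, ?_⟩
      have h4 : (m / 2) ^ 2 ≤ (N w) ^ 2 := pow_le_pow_left₀ (by linarith) h2 2
      have h5 : F w ≤ 32 * C ^ 2 * (N w) ^ 2 := by
        have h6 : 32 * C ^ 2 * (m / 2) ^ 2 ≤ 32 * C ^ 2 * (N w) ^ 2 :=
          mul_le_mul_of_nonneg_left h4 (by positivity)
        have h7 : 32 * C ^ 2 * (m / 2) ^ 2 = 8 * C ^ 2 * m ^ 2 := by ring
        linarith
      rw [div_mul_eq_mul_div, one_mul, div_le_iff₀ (by positivity)]
      linarith
  have h1 : P.real S ≤ P.real {w | 0 < N w ∧ 1 / (32 * C ^ 2) * F w ≤ (N w) ^ 2} + P.real B :=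
    (measureReal_mono hsub).trans (measureReal_union_le _ _)
  have h2 : 1 / (4 * C) = 1 / (8 * C) + 1 / (8 * C) := by
    field_simp
    norm_num
  linarith

theorem second_moment {Ω : Type*} [MeasurableSpace Ω] (P : Measure Ω) [IsProbabilityMeasure P]
    (N En : ℕ → Ω → ℝ) (hN : ∀ b, Measurable (N b)) (hE : ∀ b, Measurable (En b))
    (h0 : ∀ b w, 0 ≤ N b w) (hNE : ∀ b w, (N b w) ^ 2 ≤ En b w)
    (hI : ∀ b, Integrable (En b) P) (C : ℝ)
    (hC : ∀ b, ∫ w, En b w ∂P ≤ C * (∫ w, N b w ∂P) ^ 2) (hpos : ∀ b, 0 < ∫ w, N b w ∂P) :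
    ∃ c : ℝ, 0 < c ∧ MeasurableSet {w | ∃ᶠ b in atTop, 0 < N b w ∧ c * En b w ≤ (N b w) ^ 2} ∧
      0 < P {w | ∃ᶠ b in atTop, 0 < N b w ∧ c * En b w ≤ (N b w) ^ 2} := by
  have hst := fun b => E5p_step P (N b) (En b) (hN b) (h0 b) (hNE b) (hI b) C (hC b) (hpos b)
  have hCpos : 0 < C := (hst 0).1
  refine ⟨1 / (32 * C ^ 2), by positivity, ?_⟩
  set A : ℕ → Set Ω := fun b => {w | 0 < N b w ∧ 1 / (32 * C ^ 2) * En b w ≤ (N b w) ^ 2} with hA
  have hAm : ∀ b, MeasurableSet (A b) := fun b =>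
    (measurableSet_lt measurable_const (hN b)).inter
      (measurableSet_le ((hE b).const_mul _) ((hN b).pow_const 2))
  have hset : {w | ∃ᶠ b in atTop, 0 < N b w ∧ 1 / (32 * C ^ 2) * En b w ≤ (N b w) ^ 2} =
      ⋂ k : ℕ, ⋃ b : ℕ, ⋃ _ : k ≤ b, A b := by
    ext w
    simp only [Set.mem_iInter, Set.mem_iUnion, exists_prop]
    exact Filter.frequently_atTop
  have hBm : ∀ k, MeasurableSet (⋃ b : ℕ, ⋃ _ : k ≤ b, A b) := fun k =>
    MeasurableSet.iUnion fun b => MeasurableSet.iUnion fun _ => hAm b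
  rw [hset]
  refine ⟨MeasurableSet.iInter hBm, ?_⟩
  have hanti : Antitone fun k : ℕ => ⋃ b : ℕ, ⋃ _ : k ≤ b, A b := by
    intro k l hkl w hw
    simp only [Set.mem_iUnion, exists_prop] at hw ⊢
    obtain ⟨b, hb, h⟩ := hw
    exact ⟨b, hkl.trans hb, h⟩
  rw [hanti.measure_iInter (fun k => (hBm k).nullMeasurableSet) ⟨0, measure_ne_top P _⟩]
  have hlow : ∀ k : ℕ, ENNReal.ofReal (1 / (8 * C)) ≤ P (⋃ b : ℕ, ⋃ _ : k ≤ b, A b) := by
    intro k
    have h1 : A k ⊆ ⋃ b : ℕ, ⋃ _ : k ≤ b, A b := by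
      intro w hw
      simp only [Set.mem_iUnion, exists_prop]
      exact ⟨k, le_rfl, hw⟩
    refine le_trans ?_ (measure_mono h1)
    have h2 := ENNReal.ofReal_le_ofReal (hst k).2
    rwa [ofReal_measureReal] at h2
  exact lt_of_lt_of_le (ENNReal.ofReal_pos.2 (by positivity)) (le_iInf hlow)

end Pool.Agent.H94.CD
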