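import Pool.Agent.H94.CD.E5b

/-!
# CD, frame E, piece EM: integrals of the number of selected squares and of the energy

PROOF. `((sel D K w).card : ℝ) = ∑ V ∈ D, (K V).indicator 1 w` and
`energy n b s (sel D K w) = ∑ V ∈ D, ∑ W ∈ D, (K V ∩ K W).indicator (fun _ => x ^ ..) w`
(`Finset.sum_filter`).  Measurability and integrability: finite sums of indicators of measurable sets
times constants, on a probability space.  Integrals: `integral_finset_sum`, `integral_indicator_const`.
`card_sq_le_energy`: each term `(8 ^ n) ^ (s * lastTouch ..)` is at least `1`.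
-/

set_option autoImplicit false

namespace Pool.Agent.H94.CD

open MeasureTheory ProbabilityTheory Metric Set
open scoped ENNReal NNReal
open Pool.Agent.Helper3.CD Pool.Agent.Helper16.CD

open Classical in
/-- the selected squares -/
noncomputable def sel {Ω : Type*} (D : Finset Idx) (K : Idx → Set Ω) (w : Ω) : Finset Idx :=
  D.filter fun V => w ∈ K V

theorem mem_sel {Ω : Type*} (D : Finset Idx) (K : Idx → Set Ω) (w : Ω) (V : Idx) :
    V ∈ sel D K w ↔ V ∈ D ∧ w ∈ K V := by
  classical
  unfold sel
  rw [Finset.mem_filter]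

theorem card_sq_le_energy (n b : ℕ) {s : ℝ} (hs : 0 < s) (A : Finset Idx) :
    (A.card : ℝ) ^ 2 ≤ energy n b s A := by
  have h1 : ∀ V ∈ A, ∀ W ∈ A, (1 : ℝ) ≤ ((8 : ℝ) ^ n) ^ (s * lastTouch n b V W) := by
    intro V _ W _
    exact Real.one_le_rpow (one_le_pow₀ (by norm_num)) (by positivity)
  calc (A.card : ℝ) ^ 2 = ∑ V ∈ A, ∑ W ∈ A, (1 : ℝ) := by
        rw [Finset.sum_const, Finset.sum_const, nsmul_eq_mul, nsmul_eq_mul, mul_one, sq]
    _ ≤ energy n b s A := by
        unfold energy
        exact Finset.sum_le_sum fun V hV => Finset.sum_le_sum fun W hW => h1 V hV W hW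

private theorem EM_card {Ω : Type*} (D : Finset Idx) (K : Idx → Set Ω) (w : Ω) :
    ((sel D K w).card : ℝ) = ∑ V ∈ D, (K V).indicator (fun _ => (1 : ℝ)) w := by
  classical
  unfold sel
  rw [Finset.card_filter]
  push_cast
  refine Finset.sum_congr rfl fun V _ => ?_
  by_cases hV : w ∈ K V
  · rw [if_pos hV, indicator_of_mem hV]
  · rw [if_neg hV, indicator_of_notMem hV]

private theorem EM_energy {Ω : Type*} (D : Finset Idx) (K : Idx → Set Ω) (w : Ω) (n b : ℕ)
    (s : ℝ) : energy n b s (sel D K w) = ∑ V ∈ D, ∑ W ∈ D,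
      (K V ∩ K W).indicator (fun _ => ((8 : ℝ) ^ n) ^ (s * lastTouch n b V W)) w := by
  classical
  unfold energy sel
  rw [Finset.sum_filter]
  refine Finset.sum_congr rfl fun V _ => ?_
  rw [Finset.sum_filter]
  by_cases hV : w ∈ K V
  · rw [if_pos hV]
    refine Finset.sum_congr rfl fun W _ => ?_
    by_cases hW : w ∈ K W
    · rw [if_pos hW, indicator_of_mem (show w ∈ K V ∩ K W from ⟨hV, hW⟩)]
    · rw [if_neg hW, indicator_of_notMem fun h => hW h.2]
  · rw [if_neg hV]
    exact (Finset.sum_eq_zero fun W _ => indicator_of_notMem (fun h => hV h.1) _).symm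

variable {Ω : Type*} [MeasurableSpace Ω] (P : Measure Ω) [IsProbabilityMeasure P]
  (D : Finset Idx) (K : Idx → Set Ω)

theorem measurable_card_sel (hK : ∀ V ∈ D, MeasurableSet (K V)) :
    Measurable fun w => ((sel D K w).card : ℝ) := by
  simp only [EM_card]
  exact Finset.measurable_fun_sum D fun V hV => measurable_const.indicator (hK V hV)

theorem measurable_energy_sel (hK : ∀ V ∈ D, MeasurableSet (K V)) (n b : ℕ) (s : ℝ) :
    Measurable fun w => energy n b s (sel D K w) := by
  simp only [EM_energy]
  exact Finset.measurable_fun_sum D fun V hV => Finset.measurable_fun_sum D fun W hW =>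
    measurable_const.indicator ((hK V hV).inter (hK W hW))

theorem integrable_energy_sel (hK : ∀ V ∈ D, MeasurableSet (K V)) (n b : ℕ) (s : ℝ) :
    Integrable (fun w => energy n b s (sel D K w)) P := by
  simp only [EM_energy]
  exact integrable_finsetSum D fun V hV => integrable_finsetSum D fun W hW =>
    (integrable_const _).indicator ((hK V hV).inter (hK W hW))

theorem integral_card_sel (hK : ∀ V ∈ D, MeasurableSet (K V)) :
    ∫ w, ((sel D K w).card : ℝ) ∂P = ∑ V ∈ D, P.real (K V) := by
  simp only [EM_card]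
  rw [integral_finsetSum D fun V hV => (integrable_const _).indicator (hK V hV)]
  refine Finset.sum_congr rfl fun V hV => ?_
  rw [integral_indicator_const _ (hK V hV), smul_eq_mul, mul_one]

theorem integral_energy_sel (hK : ∀ V ∈ D, MeasurableSet (K V)) (n b : ℕ) (s : ℝ) :
    ∫ w, energy n b s (sel D K w) ∂P =
      ∑ V ∈ D, ∑ W ∈ D, P.real (K V ∩ K W) * ((8 : ℝ) ^ n) ^ (s * lastTouch n b V W) := by
  simp only [EM_energy]
  rw [integral_finsetSum D fun V hV => integrable_finsetSum D fun W hW =>
    (integrable_const _).indicator ((hK V hV).inter (hK W hW))]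
  refine Finset.sum_congr rfl fun V hV => ?_
  rw [integral_finsetSum D fun W hW =>
    (integrable_const _).indicator ((hK V hV).inter (hK W hW))]
  refine Finset.sum_congr rfl fun W hW => ?_
  rw [integral_indicator_const _ ((hK V hV).inter (hK W hW)), smul_eq_mul]

end Pool.Agent.H94.CD
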