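import Pool.Agent.H94.CD.Tree

/-!
# CD, frame E, piece Hgeo: the geometry of two branches

Let `V' = anc n q V`, `W' = anc n q W` (depth `k + 2`), `k` the last touching depth.

PROOF of `disjoint_inC`. `par n V' = anc n (q + 1) V` and `par n W'` (depth `k + 1`) do not touch
(`not_touch` with `k + 1`).  `ctr V' ∈ cell V' ⊆ cell (par n V')` (`cell_anc` with `j = 1` or `cell_par`), same for
`W'`; so `dist (ctr V') (ctr W') ≥ side (par n V') = 8 ^ n * side V' ≥ 64 * side V'` by
`side_le_of_not_touch`, `side_anc`.  If `i ∈ inC V' ∩ inC W'` then `ctr i ∈ cell i` is in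
`big 19 V' ∩ big 19 W'`, so `dist (ctr V') (ctr W') ≤ 19 * side V'`
(the sides of `V'` and `W'` are equal, both have level `3 * n * (k + 3)`).  Contradiction.

PROOF of `big_subset_touch`. Let `V'' = anc n 2 V' = anc n (q + 2) V`, `W''` the same for `W` (depth `k`).
They touch (`touch_lastTouch`), so `dist (ctr V'') (ctr W'') ≤ side V''` (`ctr_touch`), and
`dist (ctr W') (ctr W'') ≤ side W'' / 2` (`ctr_anc`), `side W' = side W'' / 64 ^ n ≤ side W'' / 64`.  A point of
`big 20 W'` has distance at most `(10 / 64 + 1 / 2 + 1) * side V'' ≤ 9 / 2 * side V''` from `ctr V''`.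
`big_subset_self`: the same with `V' = W'`.
-/

set_option autoImplicit false

namespace Pool.Agent.H94.CD

open MeasureTheory ProbabilityTheory Metric Set
open scoped ENNReal NNReal
open Pool.Agent.Helper3.CD Pool.Agent.Helper16.CD

private theorem Hgeo_ctr_mem (i : Idx) : ctr i ∈ cell i := by
  unfold cell big
  refine mem_closedBall_self ?_
  have := side_pos i
  positivity

private theorem Hgeo_side {V W : Idx} (h : V.1 = W.1) : side V = side W := by
  unfold side
  rw [h]

theorem disjoint_inC {n k q : ℕ} (hn : 2 ≤ n) {V W : Idx}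
    (hV : V ∈ desc n (rootV n) (k + 2 + q)) (hW : W ∈ desc n (rootV n) (k + 2 + q))
    (hk : lastTouch n (k + 2 + q) V W = k) :
    Disjoint (inC (anc n q V)) (inC (anc n q W)) := by
  rw [Set.disjoint_left]
  intro i hi hi'
  have hV1 : anc n q V ∈ desc n (rootV n) (k + 1 + 1) := anc_mem hV
  have hW1 : anc n q W ∈ desc n (rootV n) (k + 1 + 1) := anc_mem hW
  have hV2 : anc n 1 (anc n q V) ∈ desc n (rootV n) (k + 1) := anc_mem hV1
  have hW2 : anc n 1 (anc n q W) ∈ desc n (rootV n) (k + 1) := anc_mem hW1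
  have hnt : ¬ Touch (anc n (k + 2 + q - (k + 1)) V) (anc n (k + 2 + q - (k + 1)) W) :=
    not_touch (by omega) (by omega)
  have e : k + 2 + q - (k + 1) = 1 + q := by omega
  rw [e, anc_add, anc_add] at hnt
  have hlev : (anc n 1 (anc n q V)).1 = (anc n 1 (anc n q W)).1 := by
    rw [level_desc hV2, level_desc hW2]
  have hd : side (anc n 1 (anc n q V)) ≤ dist (ctr (anc n q V)) (ctr (anc n q W)) :=
    side_le_of_not_touch hlev hnt (cell_anc hV1 (Hgeo_ctr_mem _)) (cell_anc hW1 (Hgeo_ctr_mem _))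
  have hs : side (anc n 1 (anc n q V)) = ((8 : ℝ) ^ n) ^ 1 * side (anc n q V) := side_anc hV1
  have h64 : (64 : ℝ) ≤ 8 ^ n := by
    calc (64 : ℝ) = 8 ^ 2 := by norm_num
      _ ≤ 8 ^ n := pow_le_pow_right₀ (by norm_num) hn
  have hci : ctr i ∈ big 19 (anc n q V) := hi.2 (Hgeo_ctr_mem i)
  have hci' : ctr i ∈ big 19 (anc n q W) := hi'.2 (Hgeo_ctr_mem i)
  have hVW : side (anc n q W) = side (anc n q V) :=
    Hgeo_side (by rw [level_desc hV1, level_desc hW1])
  unfold big at hci hci'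
  rw [mem_closedBall] at hci hci'
  have htri : dist (ctr (anc n q V)) (ctr (anc n q W)) ≤
      dist (ctr i) (ctr (anc n q V)) + dist (ctr i) (ctr (anc n q W)) := by
    rw [dist_comm (ctr i) (ctr (anc n q V))]
    exact dist_triangle _ _ _
  have hpos := side_pos (anc n q V)
  rw [pow_one] at hs
  rw [hVW] at hci'
  nlinarith

private theorem Hgeo_bound {n k : ℕ} (hn : 1 ≤ n) {V W : Idx}
    (hV : V ∈ desc n (rootV n) (k + 2)) (hW : W ∈ desc n (rootV n) (k + 2))
    (hT : Touch (anc n 2 V) (anc n 2 W)) : big 20 W ⊆ big 9 (anc n 2 V) := by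
  have hV2 : anc n 2 V ∈ desc n (rootV n) k := anc_mem hV
  have hW2 : anc n 2 W ∈ desc n (rootV n) k := anc_mem hW
  have hlev : (anc n 2 V).1 = (anc n 2 W).1 := by rw [level_desc hV2, level_desc hW2]
  have h1 : dist (ctr (anc n 2 V)) (ctr (anc n 2 W)) ≤ side (anc n 2 V) := ctr_touch hlev hT
  have h2 : dist (ctr W) (ctr (anc n 2 W)) ≤ side (anc n 2 W) / 2 := ctr_anc hW
  have h3 : side (anc n 2 W) = ((8 : ℝ) ^ n) ^ 2 * side W := side_anc hW
  have h4 : side (anc n 2 V) = side (anc n 2 W) := Hgeo_side hlev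
  have h8 : (8 : ℝ) ≤ 8 ^ n := by
    calc (8 : ℝ) = 8 ^ 1 := by norm_num
      _ ≤ 8 ^ n := pow_le_pow_right₀ (by norm_num) hn
  have h64 : (64 : ℝ) ≤ (8 ^ n) ^ 2 := by nlinarith
  have hpos := side_pos W
  have h5 : 64 * side W ≤ side (anc n 2 W) := by
    rw [h3]
    exact mul_le_mul_of_nonneg_right h64 hpos.le
  unfold big
  apply closedBall_subset_closedBall'
  have htri : dist (ctr W) (ctr (anc n 2 V)) ≤
      dist (ctr W) (ctr (anc n 2 W)) + dist (ctr (anc n 2 V)) (ctr (anc n 2 W)) := by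
    rw [dist_comm (ctr (anc n 2 V)) (ctr (anc n 2 W))]
    exact dist_triangle _ _ _
  rw [h4] at h1 ⊢
  linarith

theorem big_subset_touch {n k q : ℕ} (hn : 1 ≤ n) {V W : Idx}
    (hV : V ∈ desc n (rootV n) (k + 2 + q)) (hW : W ∈ desc n (rootV n) (k + 2 + q))
    (hk : lastTouch n (k + 2 + q) V W = k) :
    big 20 (anc n q W) ⊆ big 9 (anc n 2 (anc n q V)) := by
  have hT := touch_lastTouch hV hW
  rw [hk] at hT
  have e : k + 2 + q - k = 2 + q := by omega
  rw [e, anc_add, anc_add] at hT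
  exact Hgeo_bound hn (anc_mem hV) (anc_mem hW) hT

theorem big_subset_self {n k : ℕ} (hn : 1 ≤ n) {V : Idx}
    (hV : V ∈ desc n (rootV n) (k + 2)) : big 20 V ⊆ big 9 (anc n 2 V) := by
  refine Hgeo_bound hn hV hV ?_
  unfold Touch
  simp

end Pool.Agent.H94.CD
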