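import Pool.Agent.H94.CD.I2
import Pool.Agent.H94.CD.Hgeo
import Pool.Agent.Helper22.CD.MMain
import Pool.Agent.Helper3.CD.Fkg
import Pool.Agent.Helper3.CD.Indep

/-!
# CD, frame E, piece H: probability estimates for one and for two squares

All events `Ev A R` are decreasing (`decr_Ev`) and depend on the cells of `A` (`depOn_Ev`), and they are measurable
(`measurableSet_Ev` with `measR_Rootr`, `measR_badP`, `measR_Gr`, `MeasR.or` of `Helper22/CD/MMain`).
`Ev univ R ⊆ Ev A R`, and `Ev A R ⊆ Ev A R'` if `R' l → R l`.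
`law r ν = soup (fun _ => r) (fun _ => ν)` by `rfl`; use `haveI := hS.prob`.

PROOF of `prob_kept_ge`. `T = anc n q V`, `R = Rootr ∨ badP m T`.  By `kept_of` and twice `fkg`:
`P(kept (m + q) V) ≥ P(Ev (inC T)ᶜ R) * P(rin) * P(Ev univ (Gr T)) ≥ P(kept m T) * P(rin) * (1 / 2)`.

PROOF of `prob_pair_le`. `m = k + 2`, `V' = anc n q V`, `W' = anc n q W`, `R = Rootr ∨ badP m V'`,
`A₂ = univ \ inC V'`, `A₃ = A₂ \ inC W'`.
(1) `kept (m + q) V ∩ kept (m + q) W ⊆ Ev A₃ R ∩ rin q V ∩ rin q W` (`badP_add`).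
The sets of cells `A₃`, `inC V'`, `inC W'` are disjoint (`disjoint_inC`), so by `indep_sets` twice (the
intersection of the first two events depends on `A₃ ∪ inC V'`, `DepOn.mono`, `DepOn.inter`)
`P(..) ≤ P(Ev A₃ R) * P(rin q V) * P(rin q W)`.
(2) `insert_cells` with `V := V'`, `T := W'`, `A := A₂` (`big_subset_touch`) and then with
`V := V'`, `T := V'`, `A := univ` (`big_subset_self`) gives
`Ev A₃ R ∩ Ev A₂ (Gr W') ∩ Ev univ (Gr V') ⊆ Ev univ R = kept m V'`, so by `fkg` twice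
`P(Ev A₃ R) * (1 / 2) * (1 / 2) ≤ P(kept m V')`.
-/

set_option autoImplicit false

namespace Pool.Agent.H94.CD

open MeasureTheory ProbabilityTheory Metric Set
open scoped ENNReal NNReal
open Pool.Agent.Helper3.CD Pool.Agent.Helper16.CD

variable {E : Type} [MeasurableSpace E] {ν : Measure E} {sh : E → Set Plane}

theorem measurableSet_rin (hS : IsShape ν sh) (n : ℕ) {τ : ℝ} (hτ : 0 < τ) (q : ℕ) (V : Idx) :
    MeasurableSet (rin sh n τ q V) :=
  measurableSet_Ev _ _ (Pool.Agent.Helper22.CD.measR_badP hS n hτ q V)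

omit [MeasurableSpace E] in
private theorem H_Ev_anti {A B : Set Idx} (hAB : A ⊆ B) (R : List (Idx × E) → Prop) :
    Ev B R ⊆ Ev A R :=
  fun _ hw l hl => hw l fun p hp => ⟨(hl p hp).1, hAB (hl p hp).2⟩

private theorem H_meas (hS : IsShape ν sh) (n : ℕ) {τ : ℝ} (hτ : 0 < τ) (m : ℕ) (V : Idx)
    (A : Set Idx) : MeasurableSet (Ev A fun l => Rootr sh n l ∨ badP sh n τ m V l) :=
  measurableSet_Ev _ _ (Pool.Agent.Helper22.CD.MeasR.or
    (Pool.Agent.Helper22.CD.measR_Rootr hS n) (Pool.Agent.Helper22.CD.measR_badP hS n hτ m V))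

private theorem H_fkg (hS : IsShape ν sh) {r : ℝ≥0} {S T : Set (Conf E)} (h1 : MeasurableSet S)
    (h2 : MeasurableSet T) (h3 : Decr S) (h4 : Decr T) :
    (law r ν).real S * (law r ν).real T ≤ (law r ν).real (S ∩ T) := by
  haveI := hS.prob
  exact fkg_real (fun _ : Idx => r) (fun _ => ν) S T h1 h2 h3 h4

private theorem H_mono (hS : IsShape ν sh) {r : ℝ≥0} {S T : Set (Conf E)} (h : S ⊆ T) :
    (law r ν).real S ≤ (law r ν).real T := by
  haveI := hS.prob
  exact measureReal_mono h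

private theorem H_indep (hS : IsShape ν sh) {r : ℝ≥0} {A B : Set Idx} (hAB : Disjoint A B)
    {S T : Set (Conf E)} (h1 : MeasurableSet S) (h2 : MeasurableSet T) (h3 : DepOn A S)
    (h4 : DepOn B T) :
    (law r ν).real (S ∩ T) = (law r ν).real S * (law r ν).real T := by
  haveI := hS.prob
  have h := indep_sets (fun _ : Idx => r) (fun _ => ν) A B hAB S T h1 h2 h3 h4
  show (law r ν (S ∩ T)).toReal = (law r ν S).toReal * (law r ν T).toReal
  rw [← ENNReal.toReal_mul]
  exact congrArg ENNReal.toReal h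

theorem prob_kept_ge (hS : IsShape ν sh) {n : ℕ} (hn : 1 ≤ n) {τ : ℝ} (hτ : 0 < τ)
    (hτ' : τ ≤ 1 / 8) {r : ℝ≥0}
    (hG : ∀ T : Idx, 1 / 2 ≤ (law r ν).real (Ev univ (Gr sh n τ T)))
    {k q : ℕ} {V : Idx} (hV : V ∈ desc n (rootV n) (k + 2 + q)) :
    1 / 2 * ((law r ν).real (kept sh n τ (k + 2) (anc n q V)) *
      (law r ν).real (rin sh n τ q V)) ≤ (law r ν).real (kept sh n τ (k + 2 + q) V) := by
  have hG' := hG (anc n q V)
  have e1 := H_mono (r := r) hS (kept_of hS hn hτ hτ' (by omega : 2 ≤ k + 2) hV)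
  have mA := H_meas hS n hτ (k + 2) (anc n q V) (inC (anc n q V))ᶜ
  have mB := measurableSet_rin hS n hτ q V
  have mC : MeasurableSet (Ev univ (Gr sh n τ (anc n q V))) :=
    measurableSet_Ev _ _ (Pool.Agent.Helper22.CD.measR_Gr hS n τ _)
  have dA := decr_Ev (inC (anc n q V))ᶜ (fun l => Rootr sh n l ∨
    badP sh n τ (k + 2) (anc n q V) l)
  have dB : Decr (rin sh n τ q V) := decr_Ev _ _
  have e2 := H_fkg (r := r) hS (mA.inter mB) mC (dA.inter dB) (decr_Ev _ _)
  have e3 := H_fkg (r := r) hS mA mB dA dB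
  have e4 : (law r ν).real (kept sh n τ (k + 2) (anc n q V)) ≤
      (law r ν).real (Ev (inC (anc n q V))ᶜ (fun l => Rootr sh n l ∨
        badP sh n τ (k + 2) (anc n q V) l)) :=
    H_mono hS (H_Ev_anti (subset_univ _) _)
  have p1 : 0 ≤ (law r ν).real (kept sh n τ (k + 2) (anc n q V)) := measureReal_nonneg
  have p2 : 0 ≤ (law r ν).real (rin sh n τ q V) := measureReal_nonneg
  have p3 : 0 ≤ (law r ν).real (Ev (inC (anc n q V))ᶜ (fun l => Rootr sh n l ∨
        badP sh n τ (k + 2) (anc n q V) l) ∩ rin sh n τ q V) := measureReal_nonneg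
  refine le_trans ?_ (e2.trans e1)
  have e5 := (mul_le_mul_of_nonneg_right e4 p2).trans e3
  calc 1 / 2 * ((law r ν).real (kept sh n τ (k + 2) (anc n q V)) *
        (law r ν).real (rin sh n τ q V))
      ≤ 1 / 2 * (law r ν).real (Ev (inC (anc n q V))ᶜ (fun l => Rootr sh n l ∨
        badP sh n τ (k + 2) (anc n q V) l) ∩ rin sh n τ q V) :=
        mul_le_mul_of_nonneg_left e5 (by norm_num)
    _ = (law r ν).real (Ev (inC (anc n q V))ᶜ (fun l => Rootr sh n l ∨
        badP sh n τ (k + 2) (anc n q V) l) ∩ rin sh n τ q V) * (1 / 2) := mul_comm _ _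
    _ ≤ _ := mul_le_mul_of_nonneg_left hG' p3

theorem prob_pair_le (hS : IsShape ν sh) {n : ℕ} (hn : 2 ≤ n) {τ : ℝ} (hτ : 0 < τ)
    (hτ' : τ ≤ 1 / 8) {r : ℝ≥0}
    (hG : ∀ T : Idx, 1 / 2 ≤ (law r ν).real (Ev univ (Gr sh n τ T)))
    {k q : ℕ} {V W : Idx} (hV : V ∈ desc n (rootV n) (k + 2 + q))
    (hW : W ∈ desc n (rootV n) (k + 2 + q)) (hk : lastTouch n (k + 2 + q) V W = k) :
    (law r ν).real (kept sh n τ (k + 2 + q) V ∩ kept sh n τ (k + 2 + q) W) ≤
      4 * ((law r ν).real (kept sh n τ (k + 2) (anc n q V)) *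
        (law r ν).real (rin sh n τ q V) * (law r ν).real (rin sh n τ q W)) := by
  have hn1 : 1 ≤ n := by omega
  have hV' : anc n q V ∈ desc n (rootV n) (k + 2) := anc_mem hV
  have hW' : anc n q W ∈ desc n (rootV n) (k + 2) := anc_mem hW
  have hlev : (anc n q W).1 = (anc n q V).1 := by
    rw [((mem_desc_anc n (k + 2) _ _).1 hV').1, ((mem_desc_anc n (k + 2) _ _).1 hW').1]
  have hdis := disjoint_inC hn hV hW hk
  set V' := anc n q V with hVd
  set W' := anc n q W with hWd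
  set R : List (Idx × E) → Prop := fun l => Rootr sh n l ∨ badP sh n τ (k + 2) V' l with hR
  set A₂ : Set Idx := univ \ inC V' with hA₂
  set A₃ : Set Idx := A₂ \ inC W' with hA₃
  -- independence
  have s1 : kept sh n τ (k + 2 + q) V ∩ kept sh n τ (k + 2 + q) W ⊆
      (Ev A₃ R ∩ rin sh n τ q V) ∩ rin sh n τ q W := by
    rintro w ⟨hwV, hwW⟩
    refine ⟨⟨?_, ?_⟩, ?_⟩
    · intro l hl h
      refine hwV l (fun p hp => ⟨(hl p hp).1, mem_univ _⟩) ?_
      rcases h with h | h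
      · exact Or.inl h
      · exact Or.inr ((badP_add sh n τ (k + 2) q V l).2 (Or.inl h))
    · intro l hl h
      refine hwV l (fun p hp => ⟨(hl p hp).1, mem_univ _⟩) ?_
      exact Or.inr ((badP_add sh n τ (k + 2) q V l).2 (Or.inr h))
    · intro l hl h
      refine hwW l (fun p hp => ⟨(hl p hp).1, mem_univ _⟩) ?_
      exact Or.inr ((badP_add sh n τ (k + 2) q W l).2 (Or.inr h))
  have mR : ∀ A : Set Idx, MeasurableSet (Ev A R) := fun A => H_meas hS n hτ (k + 2) V' A
  have mV := measurableSet_rin hS n hτ q V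
  have mW := measurableSet_rin hS n hτ q W
  have dV : DepOn (inC V') (rin sh n τ q V) := depOn_Ev _ _
  have dW : DepOn (inC W') (rin sh n τ q W) := depOn_Ev _ _
  have d3 : DepOn A₃ (Ev A₃ R) := depOn_Ev _ _
  have j1 : Disjoint A₃ (inC V') := by
    rw [Set.disjoint_left]
    intro i hi h
    exact hi.1.2 h
  have j2 : Disjoint (A₃ ∪ inC V') (inC W') := by
    rw [Set.disjoint_union_left]
    refine ⟨?_, hdis⟩
    rw [Set.disjoint_left]
    intro i hi h
    exact hi.2 h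
  have i1 := H_indep (r := r) hS j1 (mR A₃) mV d3 dV
  have i2 := H_indep (r := r) hS j2 ((mR A₃).inter mV) mW
    ((d3.mono subset_union_left).inter (dV.mono subset_union_right)) dW
  have e1 := H_mono (r := r) hS s1
  rw [i2, i1] at e1
  -- positive correlation
  have g1 : Ev A₃ R ∩ Ev A₂ (Gr sh n τ W') ⊆ Ev A₂ R :=
    insert_cells hS hn1 hτ hτ' (by omega) hV' hlev (big_subset_touch hn1 hV hW hk) A₂
  have g2 : Ev A₂ R ∩ Ev univ (Gr sh n τ V') ⊆ Ev univ R :=
    insert_cells hS hn1 hτ hτ' (by omega) hV' rfl (big_subset_self hn1 hV') univ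
  have mG : ∀ (A : Set Idx) (T : Idx), MeasurableSet (Ev A (Gr sh n τ T)) := fun A T =>
    measurableSet_Ev _ _ (Pool.Agent.Helper22.CD.measR_Gr hS n τ _)
  have f1 := (H_fkg (r := r) hS (mR A₃) (mG A₂ W') (decr_Ev _ _) (decr_Ev _ _)).trans
    (H_mono hS g1)
  have f2 := (H_fkg (r := r) hS (mR A₂) (mG univ V') (decr_Ev _ _) (decr_Ev _ _)).trans
    (H_mono hS g2)
  have hW2 : 1 / 2 ≤ (law r ν).real (Ev A₂ (Gr sh n τ W')) :=
    (hG W').trans (H_mono hS (H_Ev_anti (subset_univ _) _))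
  have hV2 := hG V'
  have p0 : 0 ≤ (law r ν).real (Ev A₃ R) := measureReal_nonneg
  have p1 : 0 ≤ (law r ν).real (Ev A₂ R) := measureReal_nonneg
  have p2 : 0 ≤ (law r ν).real (rin sh n τ q V) := measureReal_nonneg
  have p3 : 0 ≤ (law r ν).real (rin sh n τ q W) := measureReal_nonneg
  have f3 : (law r ν).real (Ev A₃ R) ≤ 4 * (law r ν).real (Ev univ R) := by
    have h1 := (mul_le_mul_of_nonneg_left hW2 p0).trans f1
    have h2 := (mul_le_mul_of_nonneg_left hV2 p1).trans f2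
    linarith
  refine e1.trans ?_
  have f4 := mul_le_mul_of_nonneg_right (mul_le_mul_of_nonneg_right f3 p2) p3
  refine f4.trans (le_of_eq ?_)
  show _ = 4 * ((law r ν).real (Ev univ R) * (law r ν).real (rin sh n τ q V) *
    (law r ν).real (rin sh n τ q W))
  ring

end Pool.Agent.H94.CD
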