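import Pool.Agent.H94.CD.Tree
import Pool.Agent.Helper16.CD.Top

/-!
# CD, frame E, piece I1b: there are no low loops near `T`

PROOF. The level of `V` is `3 * n * (m + 1)` (`level_desc`), that of `anc n 2 V` is
`3 * n * (m - 1) = T.1 - 6 * n` (`anc_mem`, `level_desc`).  Suppose `z ∈ lp sh q ∩ big 20 T`.
As `q.1.1 < T.1`, `q.1 ∉ inC T`.
Case `T.1 - 6 * n ≤ q.1.1`: the list `[q]` satisfies the first alternative `OneR` of `Gr sh n τ T`
(`big 20 T = closedBall (ctr T) (20 * side T / 2) ⊆ closedBall (ctr T) (31 * side T / 2)`),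
contradiction to `hG`.
Case `q.1.1 < 3 * n`: `z ∈ big 9 (anc n 2 V) ⊆ big 9 (rootV n)` (`big_par`, iterated: `anc n m V = rootV n`)
`= closedBall (ctr (rootV n)) (9 / 2 * side (rootV n)) ⊆ closedBall 0 4`, since
`side (rootV n) = (1 / 2) ^ (3 * n) ≤ 1 / 8` and the centre has norm `side (rootV n) / 2`.  So `[q]` satisfies
`Rootr sh n` (first alternative), contradiction to `hw` as `q.1 ∈ A \ inC T`.
Case `3 * n ≤ q.1.1 < 3 * n * (m - 1)`: let `c = q.1.1 / (3 * n)` (so `1 ≤ c ≤ m - 2`,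
`3 * n * c ≤ q.1.1 < 3 * n * (c + 1)`) and `t = m - c`, `2 ≤ t < m`.  The square `anc n t V` has depth
`c` and level `3 * n * (c + 1)`, `anc n (t + 1) V` has level `3 * n * c`.  `[q]` satisfies
`K1r sh (anc n (t + 1) V) (anc n t V)`: `z ∈ big 9 (anc n 2 V) ⊆ big 9 (anc n t V)` (`big_par` iterated,
`2 ≤ t`).  So `badP sh n τ m V [q]` by `badP_iff`, contradiction to `hw`.
-/

set_option autoImplicit false

namespace Pool.Agent.H94.CD

open MeasureTheory ProbabilityTheory Metric Set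
open scoped ENNReal NNReal
open Pool.Agent.Helper3.CD Pool.Agent.Helper16.CD

theorem big_anc {n b j : ℕ} {V W : Idx} (h : W ∈ desc n V (b + j)) {t : ℝ} (ht : 1 ≤ t) :
    big t W ⊆ big t (anc n j W) := by
  induction j generalizing W with
  | zero => exact subset_rfl
  | succ j ih =>
    rw [anc_succ]
    have h1 : 3 * n ≤ W.1 := by
      rw [level_desc h]
      have h2 : 3 * n * (b + (j + 1)) = 3 * n + 3 * n * (b + j) := by ring
      rw [h2]
      omega
    exact (big_par h1 ht).trans (ih (par_mem_desc h))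

theorem no_low {E : Type} [MeasurableSpace E] {ν : Measure E} {sh : E → Set Plane}
    (hS : IsShape ν sh) {n : ℕ} (hn : 1 ≤ n) {τ : ℝ} {m : ℕ} (hm : 2 ≤ m) {V T : Idx}
    (hV : V ∈ desc n (rootV n) m) (hT : T.1 = V.1) (hTV : big 20 T ⊆ big 9 (anc n 2 V))
    {A : Set Idx} {w : Conf E}
    (hw : w ∈ Ev (A \ inC T) fun l => Rootr sh n l ∨ badP sh n τ m V l)
    (hG : w ∈ Ev A (Gr sh n τ T)) {q : Idx × E} (hq : q ∈ Sp w) (hqA : q.1 ∈ A)
    (hlev : q.1.1 < T.1) : Disjoint (lp sh q) (big 20 T) := by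
  by_contra hcon
  obtain ⟨z, hz, hzT⟩ := Set.not_disjoint_iff.1 hcon
  have hnot : q.1 ∉ inC T := fun h => absurd hlev (not_lt.2 h.1)
  have hwq : ∀ p ∈ [q], p ∈ Sp w ∧ p.1 ∈ A \ inC T := by
    intro p hp
    rw [List.mem_singleton] at hp
    subst hp
    exact ⟨hq, hqA, hnot⟩
  have hGq : ∀ p ∈ [q], p ∈ Sp w ∧ p.1 ∈ A := by
    intro p hp
    rw [List.mem_singleton] at hp
    subst hp
    exact ⟨hq, hqA⟩
  obtain ⟨r, rfl⟩ : ∃ r, m = r + 2 := ⟨m - 2, by omega⟩
  have hVl : V.1 = 3 * n + 3 * n * (r + 2) := level_desc hV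
  have ha2 : anc n 2 V ∈ desc n (rootV n) r := anc_mem hV
  have hsT := side_pos T
  rcases le_or_gt (T.1 - 6 * n) q.1.1 with h1 | h1
  · -- the separation condition
    refine hG [q] hGq (Or.inl ⟨q, rfl, h1, hlev, z, hz, ?_⟩)
    have h2 : z ∈ closedBall (ctr T) (20 * side T / 2) := hzT
    refine closedBall_subset_closedBall ?_ h2
    linarith
  have hT6 : T.1 - 6 * n = 3 * n * (r + 1) := by
    rw [hT, hVl]
    have : 3 * n + 3 * n * (r + 2) = 3 * n * (r + 1) + 6 * n := by ring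
    rw [this]
    omega
  rw [hT6] at h1
  rcases lt_or_ge q.1.1 (3 * n) with h2 | h2
  · -- the root condition
    refine hw [q] hwq (Or.inl (Or.inl ⟨q, rfl, Nat.zero_le _, h2, z, hz, ?_⟩))
    have h3 : anc n 2 V ∈ desc n (rootV n) (0 + r) := by rwa [zero_add]
    have h4 := big_anc h3 (t := 9) (by norm_num) (hTV hzT)
    rw [((mem_desc_anc n r _ _).1 ha2).2] at h4
    have hs : side (rootV n) ≤ 1 / 8 := by
      unfold side rootV
      change (1 / 2 : ℝ) ^ (3 * n) ≤ 1 / 8
      calc (1 / 2 : ℝ) ^ (3 * n) ≤ (1 / 2 : ℝ) ^ 3 :=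
            pow_le_pow_of_le_one (by norm_num) (by norm_num) (by omega)
        _ = 1 / 8 := by norm_num
    have hs0 := side_pos (rootV n)
    have hc : dist (ctr (rootV n)) (0 : Plane) ≤ side (rootV n) / 2 := by
      have e : ctr (rootV n) = (side (rootV n) * (1 / 2), side (rootV n) * (1 / 2)) := by
        unfold ctr pos rootV
        simp
      rw [e, Prod.dist_eq, max_le_iff, Real.dist_eq, Real.dist_eq]
      change |side (rootV n) * (1 / 2) - 0| ≤ _ ∧ |side (rootV n) * (1 / 2) - 0| ≤ _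
      rw [sub_zero, abs_of_pos (by positivity)]
      constructor <;> linarith
    have h5 : dist z (ctr (rootV n)) ≤ 9 * side (rootV n) / 2 := mem_closedBall.1 h4
    rw [mem_closedBall]
    have h6 := dist_triangle z (ctr (rootV n)) (0 : Plane)
    linarith
  · -- a block condition
    set c := q.1.1 / (3 * n) with hc
    have h3n : 0 < 3 * n := by omega
    have hc1 : 1 ≤ c := by
      rw [hc]
      exact (Nat.one_le_div_iff h3n).2 h2
    have hcr : c ≤ r := by
      have : c < r + 1 := by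
        rw [hc]
        exact Nat.div_lt_of_lt_mul h1
      omega
    have hclo : 3 * n * c ≤ q.1.1 := Nat.mul_div_le _ _
    have hchi : q.1.1 < 3 * n * (c + 1) := Nat.lt_mul_div_succ _ h3n
    obtain ⟨d, hd⟩ : ∃ d, r = c + d := ⟨r - c, by omega⟩
    obtain ⟨c', hc'⟩ : ∃ c', c = c' + 1 := ⟨c - 1, by omega⟩
    have ht1 : anc n (d + 2) V ∈ desc n (rootV n) c := by
      refine anc_mem (j := d + 2) ?_
      have e : c + (d + 2) = r + 2 := by omega
      rw [e]
      exact hV
    have ht2 : anc n (d + 2 + 1) V ∈ desc n (rootV n) c' := by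
      refine anc_mem (j := d + 2 + 1) ?_
      have e : c' + (d + 2 + 1) = r + 2 := by omega
      rw [e]
      exact hV
    have hl1 : (anc n (d + 2) V).1 = 3 * n * (c + 1) := by
      rw [level_desc ht1]
      change 3 * n + 3 * n * c = _
      ring
    have hl2 : (anc n (d + 2 + 1) V).1 = 3 * n * c := by
      rw [level_desc ht2, hc']
      change 3 * n + 3 * n * c' = _
      ring
    refine hw [q] hwq (Or.inr ((badP_iff sh n τ (r + 2) V [q]).2 ⟨d + 2, by omega, ?_⟩))
    refine Or.inl ⟨q, rfl, ?_, ?_, z, hz, ?_⟩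
    · change (anc n (d + 2 + 1) V).1 ≤ q.1.1
      rw [hl2]
      exact hclo
    · change q.1.1 < (anc n (d + 2) V).1
      rw [hl1]
      exact hchi
    · have h3 : anc n 2 V ∈ desc n (rootV n) (c + d) := by rwa [← hd]
      have h4 := big_anc h3 (t := 9) (by norm_num) (hTV hzT)
      rw [← anc_add] at h4
      exact h4

end Pool.Agent.H94.CD
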