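import Pool.Agent.H94.CD.I1a
import Pool.Agent.H94.CD.I1b

/-!
# CD, frame E, piece I1: loops of the cells `inC T` do not destroy the conditions above `T`

PROOF. Let `w` be in the left side, `l` a list of present points with cells in `A` and `Rootr sh n l` or
`badP sh n τ m V l`.  If no cell of `l` is in `inC T` this contradicts `hw`.  So some `p₀ ∈ l` has
`p₀.1 ∈ inC T`: its level is at least `T.1` and `cell p₀.1 ⊆ big 19 T`, and `lp sh p₀` meets `cell p₀.1`
(`lp_meets_cell`), hence meets `big 19 T`.

CLAIM (`walk_near`). If moreover `Walk sh l`, then all levels of `l` are at least `T.1` and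
`diam (un sh l) < τ / 2 * side T`.  Apply `walk_high` with `δ = τ / 2 * side T`: `h1` from `hG` (a nonempty segment
`l'` of `l` is a walk of present points with cells in `A`, levels at least `T.1`, and meets
`big 19 T ⊆ closedBall (ctr T) (31 * side T / 2)`; if `δ ≤ diam (un sh l')` then `l'` satisfies the
second alternative of `Gr`); `h2` is `no_low`.

Cases, with `side T ≤ side (anc n t V)` for `t ≤ m` (`side_anc`, `T.1 = V.1`):
* `Rootr`, first alternative: `l = [p]`, `p = p₀`, level `< 3 * n ≤ T.1`: contradiction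
  (`T.1 = 3 * n * (m + 1)`).
* `Rootr`, second alternative: `side (rootV n) / 4 ≤ diam (un sh l) < τ / 2 * side T ≤ side T / 16`,
  contradiction to `side T ≤ side (rootV n)`.
* `badP`: by `badP_iff` some `t < m` with `bad sh τ V₁ V₂ l`, `V₁ = anc n (t + 1) V`, `V₂ = anc n t V`.
  `K1r`: `l = [p₀]`, level `< V₂.1 ≤ V.1 = T.1`: contradiction.
  `K2r`: `side V₂ / 4 ≤ diam (un sh l) < side T / 16`, contradiction.
  `K3r`: take `y ∈ un sh l` (nonempty, `isConnected_un`).  `ctr V₂ ∈ fillIn (cthickening (τ * side V₂) (un sh l))`;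
  this set is bounded, contains `y` and has diameter at most `diam (un sh l) + 2 * τ * side V₂ ≤ side V₂ / 2`
  (`diam_cthickening_le`), so `dist (ctr V₂) y ≤ side V₂ / 2` by `fillIn_subset`.  But `y ∉ big 7 V₂`,
  contradiction.
-/

set_option autoImplicit false

namespace Pool.Agent.H94.CD

open MeasureTheory ProbabilityTheory Metric Set
open scoped ENNReal NNReal
open Pool.Agent.Helper3.CD Pool.Agent.Helper16.CD

theorem insert_cells {E : Type} [MeasurableSpace E] {ν : Measure E} {sh : E → Set Plane}
    (hS : IsShape ν sh) {n : ℕ} (hn : 1 ≤ n) {τ : ℝ} (hτ : 0 < τ) (hτ' : τ ≤ 1 / 8)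
    {m : ℕ} (hm : 2 ≤ m) {V T : Idx}
    (hV : V ∈ desc n (rootV n) m) (hT : T.1 = V.1) (hTV : big 20 T ⊆ big 9 (anc n 2 V))
    (A : Set Idx) :
    Ev (A \ inC T) (fun l => Rootr sh n l ∨ badP sh n τ m V l) ∩ Ev A (Gr sh n τ T) ⊆
      Ev A (fun l => Rootr sh n l ∨ badP sh n τ m V l) := by
  rintro w ⟨hw, hG⟩ l hl hR
  have hsT := side_pos T
  have hTV1 : side T = side V := by
    unfold side
    rw [hT]
  have hlevV : V.1 = 3 * n + 3 * n * m := level_desc hV
  by_cases hin : ∀ p ∈ l, p.1 ∉ inC T
  · exact hw l (fun p hp => ⟨(hl p hp).1, (hl p hp).2, hin p hp⟩) hR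
  push Not at hin
  obtain ⟨p₀, hp₀, hp₀T⟩ := hin
  have hlev0 : T.1 ≤ p₀.1.1 := hp₀T.1
  have hmeet : (lp sh p₀ ∩ big 19 T).Nonempty :=
    (lp_meets_cell hS p₀).mono (inter_subset_inter_right _ hp₀T.2)
  have hball : big 19 T ⊆ closedBall (ctr T) (31 * side T / 2) :=
    closedBall_subset_closedBall (by linarith)
  have near : Walk sh l → diam (un sh l) < τ / 2 * side T := by
    intro hwalk
    refine (walk_high hS (T := T) (δ := τ / 2 * side T) (by nlinarith) hwalk ?_ ?_
      ⟨p₀, hp₀, hlev0, hmeet⟩).2
    · intro a l' c hac hne hlev hm'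
      by_contra hcon
      rw [not_lt] at hcon
      have hsub : ∀ p ∈ l', p ∈ l := fun p hp => by
        rw [hac]
        exact List.mem_append_left _ (List.mem_append_right _ hp)
      refine hG l' (fun p hp => hl p (hsub p hp)) (Or.inr ⟨hne, ?_, hlev,
        hm'.mono (inter_subset_inter_right _ hball), hcon⟩)
      unfold Walk at hwalk ⊢
      rw [hac] at hwalk
      exact hwalk.left_of_append.right_of_append
    · intro q hq hlev
      exact no_low hS hn hm hV hT hTV hw hG (hl q hq).1 (hl q hq).2 hlev
  have hone : ∀ {a b : ℕ} {x : Plane} {R : ℝ}, b ≤ V.1 → ¬ OneR sh a b x R l := by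
    rintro a b x R hb ⟨p, rfl, -, h2, -⟩
    rw [List.mem_singleton] at hp₀
    subst hp₀
    omega
  rcases hR with (h | h) | h
  · exact hone (by omega) h
  · obtain ⟨-, hwalk, -, -, hd⟩ := h
    have h1 := near hwalk
    have h2 := side_desc hV
    have h3 : side V ≤ side (rootV n) := by
      rw [h2]
      exact div_le_self (side_pos _).le (one_le_pow₀ (one_le_pow₀ (by norm_num)))
    nlinarith
  · rw [badP_iff] at h
    obtain ⟨t, ht, h⟩ := h
    have hV' : V ∈ desc n (rootV n) ((m - t) + t) := by
      rwa [Nat.sub_add_cancel ht.le]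
    have hside : side V ≤ side ((par n)^[t] V) := by
      have h1 := side_anc hV'
      unfold anc at h1
      rw [h1]
      exact le_mul_of_one_le_left (side_pos V).le (one_le_pow₀ (one_le_pow₀ (by norm_num)))
    have hlev2 : ((par n)^[t] V).1 ≤ V.1 := by
      have h1 := level_desc (par_iterate_desc hV ht.le)
      have h2 : 3 * n * (m - t) ≤ 3 * n * m := Nat.mul_le_mul_left _ (Nat.sub_le _ _)
      rw [h1, hlevV]
      exact Nat.add_le_add_left h2 _
    set V₂ : Idx := (par n)^[t] V with hV₂
    have hs2 := side_pos V₂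
    rcases h with h | h | h
    · exact hone hlev2 h
    · obtain ⟨-, hwalk, -, -, hd⟩ := h
      have h1 := near hwalk
      nlinarith
    · obtain ⟨hne, hwalk, -, -, hdis, hfill⟩ := h
      have h1 := near hwalk
      obtain ⟨y, hy⟩ := (isConnected_un hS hne hwalk).nonempty
      have hy' : y ∈ cthickening (τ * side V₂) (un sh l) := self_subset_cthickening _ hy
      have hb : Bornology.IsBounded (cthickening (τ * side V₂) (un sh l)) :=
        (isCompact_un hS l).isBounded.cthickening
      have h2 := fillIn_subset hb hy' hfill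
      have h3 := diam_cthickening_le (un sh l) (show 0 ≤ τ * side V₂ by positivity)
      have h4 : y ∈ big 7 V₂ := by
        unfold big
        rw [mem_closedBall, dist_comm]
        nlinarith
      exact Set.disjoint_left.1 hdis hy h4

end Pool.Agent.H94.CD
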