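import Pool.Agent.Helper16.CD.Top

/-!
# CD, frame E, piece I1a: a walk through a region without low loops

PROOF. Write `l = a ++ p₀ :: c` with `p₀` as in `h3` (`List.append_of_mem`).
(1) All levels in `c` are at least `T.1`.  Otherwise let `q` be the first element of `c` of level
`< T.1`: `c = c₁ ++ q :: c₂`, all elements of `c₁` have level at least `T.1`.  The segment
`l' = p₀ :: c₁` is not empty, has levels at least `T.1` and meets `big 19 T`, so by `h1` (with
`l = a ++ l' ++ (q :: c₂)`) `diam (un sh l') < δ`; `un sh l'` is bounded (`isCompact_un`), so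
every point of it has distance at most `19 * side T / 2 + δ ≤ 20 * side T / 2` from `ctr T`, that is
`un sh l' ⊆ big 20 T`.  The last element of `l'` and `q` are consecutive in `l`, so their loops meet (`hw`,
`List.isChain_append`-like lemmas), and `lp sh q` meets `big 20 T`: contradiction with `h2`.
(2) In the same way all levels in `a` are at least `T.1` (`q` the last element of low level,
`a = a₁ ++ q :: a₂`, `l' = a₂ ++ [p₀]`); one may apply (1) to the reversed list.
(3) So all levels in `l` are at least `T.1`, and `h1` with `l' = l` gives `diam (un sh l) < δ`.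
-/

set_option autoImplicit false

namespace Pool.Agent.H94.CD

open MeasureTheory ProbabilityTheory Metric Set
open scoped ENNReal NNReal
open Pool.Agent.Helper3.CD Pool.Agent.Helper16.CD

section

variable {E : Type} [MeasurableSpace E] {ν : Measure E} {sh : E → Set Plane}

private theorem seg_sub (hS : IsShape ν sh) {T : Idx} {δ : ℝ} (hδ : δ ≤ side T / 2)
    {l' : List (Idx × E)} (hd : diam (un sh l') < δ)
    (hm : (un sh l' ∩ big 19 T).Nonempty) : un sh l' ⊆ big 20 T := by
  obtain ⟨z, hz, hzT⟩ := hm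
  intro w hw
  have h1 : dist w z ≤ diam (un sh l') := dist_le_diam_of_mem (isCompact_un hS l').isBounded hw hz
  have h2 : dist z (ctr T) ≤ 19 * side T / 2 := mem_closedBall.1 hzT
  have h3 := dist_triangle w z (ctr T)
  change w ∈ closedBall (ctr T) (20 * side T / 2)
  rw [mem_closedBall]
  linarith

omit [MeasurableSpace E] in
private theorem lp_sub_un {l : List (Idx × E)} {p : Idx × E} (hp : p ∈ l) :
    lp sh p ⊆ un sh l := by
  intro z hz
  unfold un
  simp only [mem_iUnion]
  exact ⟨p, hp, hz⟩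

omit [MeasurableSpace E] in
private theorem un_mono {l l' : List (Idx × E)} (h : ∀ p ∈ l, p ∈ l') :
    un sh l ⊆ un sh l' := by
  intro z hz
  unfold un at hz ⊢
  simp only [mem_iUnion] at hz ⊢
  obtain ⟨p, hp, hz⟩ := hz
  exact ⟨p, h p hp, hz⟩

private theorem grow_right (hS : IsShape ν sh) {T : Idx} {δ : ℝ} (hδ : δ ≤ side T / 2)
    {l : List (Idx × E)} (hw : Walk sh l)
    (h1 : ∀ a l' c : List (Idx × E), l = a ++ l' ++ c → l' ≠ [] →
      (∀ p ∈ l', T.1 ≤ p.1.1) → (un sh l' ∩ big 19 T).Nonempty → diam (un sh l') < δ)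
    (h2 : ∀ q ∈ l, q.1.1 < T.1 → Disjoint (lp sh q) (big 20 T)) (a c : List (Idx × E)) :
    ∀ l' : List (Idx × E), l = a ++ l' ++ c → l' ≠ [] →
      (∀ p ∈ l', T.1 ≤ p.1.1) → (un sh l' ∩ big 19 T).Nonempty → ∀ p ∈ c, T.1 ≤ p.1.1 := by
  induction c with
  | nil => intro l' _ _ _ _ p hp; simp at hp
  | cons q c ih =>
    intro l' hl hne hlev hm
    have hq : T.1 ≤ q.1.1 := by
      by_contra hcon
      rw [not_le] at hcon
      have hsub := seg_sub hS hδ (h1 a l' (q :: c) hl hne hlev hm) hm
      have hch := hw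
      unfold Walk at hch
      rw [hl, List.isChain_append] at hch
      have hmeet := hch.2.2 (l'.getLast hne) (by
        rw [List.getLast?_append_of_ne_nil _ hne, List.getLast?_eq_getLast_of_ne_nil hne]
        rfl) q (by simp)
      obtain ⟨z, hz1, hz2⟩ := hmeet
      refine (Set.disjoint_left.1 (h2 q (by rw [hl]; simp) hcon)) hz2 (hsub ?_)
      exact lp_sub_un (List.getLast_mem hne) hz1
    intro p hp
    rcases List.mem_cons.1 hp with rfl | hp
    · exact hq
    · refine ih (l' ++ [q]) (by rw [hl]; simp) (by simp) ?_ ?_ p hp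
      · intro r hr
        rcases List.mem_append.1 hr with h | h
        · exact hlev r h
        · rw [List.mem_singleton.1 h]; exact hq
      · obtain ⟨z, hz, hzT⟩ := hm
        exact ⟨z, un_mono (fun r hr => List.mem_append_left _ hr) hz, hzT⟩

private theorem grow_left (hS : IsShape ν sh) {T : Idx} {δ : ℝ} (hδ : δ ≤ side T / 2)
    {l : List (Idx × E)} (hw : Walk sh l)
    (h1 : ∀ a l' c : List (Idx × E), l = a ++ l' ++ c → l' ≠ [] →
      (∀ p ∈ l', T.1 ≤ p.1.1) → (un sh l' ∩ big 19 T).Nonempty → diam (un sh l') < δ)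
    (h2 : ∀ q ∈ l, q.1.1 < T.1 → Disjoint (lp sh q) (big 20 T)) (c a : List (Idx × E)) :
    ∀ l' : List (Idx × E), l = a ++ l' ++ c → l' ≠ [] →
      (∀ p ∈ l', T.1 ≤ p.1.1) → (un sh l' ∩ big 19 T).Nonempty → ∀ p ∈ a, T.1 ≤ p.1.1 := by
  induction a using List.reverseRecOn with
  | nil => intro l' _ _ _ _ p hp; simp at hp
  | append_singleton a q ih =>
    intro l' hl hne hlev hm
    have hq : T.1 ≤ q.1.1 := by
      by_contra hcon
      rw [not_le] at hcon
      have hsub := seg_sub hS hδ (h1 (a ++ [q]) l' c hl hne hlev hm) hm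
      have hch := hw
      unfold Walk at hch
      rw [hl, List.append_assoc, List.isChain_append] at hch
      have hmeet := hch.2.2 q (by simp) (l'.head hne) (by
        rw [List.head?_append_of_ne_nil _ hne, List.head?_eq_some_head hne]
        rfl)
      obtain ⟨z, hz1, hz2⟩ := hmeet
      refine (Set.disjoint_left.1 (h2 q (by rw [hl]; simp) hcon)) hz1 (hsub ?_)
      exact lp_sub_un (List.head_mem hne) hz2
    intro p hp
    rcases List.mem_append.1 hp with hp | hp
    · refine ih (q :: l') (by rw [hl]; simp) (by simp) ?_ ?_ p hp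
      · intro r hr
        rcases List.mem_cons.1 hr with h | h
        · rw [h]; exact hq
        · exact hlev r h
      · obtain ⟨z, hz, hzT⟩ := hm
        exact ⟨z, un_mono (fun r hr => List.mem_cons_of_mem _ hr) hz, hzT⟩
    · rw [List.mem_singleton.1 hp]; exact hq

end

theorem walk_high {E : Type} [MeasurableSpace E] {ν : Measure E} {sh : E → Set Plane}
    (hS : IsShape ν sh) {T : Idx} {δ : ℝ} (hδ : δ ≤ side T / 2) {l : List (Idx × E)}
    (hw : Walk sh l)
    (h1 : ∀ a l' c : List (Idx × E), l = a ++ l' ++ c → l' ≠ [] →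
      (∀ p ∈ l', T.1 ≤ p.1.1) → (un sh l' ∩ big 19 T).Nonempty → diam (un sh l') < δ)
    (h2 : ∀ q ∈ l, q.1.1 < T.1 → Disjoint (lp sh q) (big 20 T))
    (h3 : ∃ p ∈ l, T.1 ≤ p.1.1 ∧ (lp sh p ∩ big 19 T).Nonempty) :
    (∀ p ∈ l, T.1 ≤ p.1.1) ∧ diam (un sh l) < δ := by
  obtain ⟨p₀, hp₀, hlev₀, hmeet₀⟩ := h3
  obtain ⟨a, c, hl⟩ := List.append_of_mem hp₀
  have hl' : l = a ++ [p₀] ++ c := by rw [hl]; simp
  have hlev : ∀ p ∈ [p₀], T.1 ≤ p.1.1 := by
    intro p hp
    rw [List.mem_singleton.1 hp]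
    exact hlev₀
  have hm : (un sh [p₀] ∩ big 19 T).Nonempty := by
    obtain ⟨z, hz, hzT⟩ := hmeet₀
    exact ⟨z, lp_sub_un (List.mem_singleton.2 rfl) hz, hzT⟩
  have hc := grow_right hS hδ hw h1 h2 a c [p₀] hl' (by simp) hlev hm
  have ha := grow_left hS hδ hw h1 h2 c a [p₀] hl' (by simp) hlev hm
  have hall : ∀ p ∈ l, T.1 ≤ p.1.1 := by
    intro p hp
    rw [hl] at hp
    rcases List.mem_append.1 hp with h | h
    · exact ha p h
    · rcases List.mem_cons.1 h with h | h
      · rw [h]; exact hlev₀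
      · exact hc p h
  refine ⟨hall, h1 [] l [] (by simp) (List.ne_nil_of_mem hp₀) hall ?_⟩
  obtain ⟨z, hz, hzT⟩ := hmeet₀
  exact ⟨z, lp_sub_un hp₀ hz, hzT⟩

end Pool.Agent.H94.CD
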