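import Pool.Agent.H94.CD.I1

/-!
# CD, frame E, piece I2: the conditions below `T` only involve the cells `inC T`

`rin sh n τ q V`: the conditions for the last `q` block steps above `V` hold for the loops
of the cells `inC (anc n q V)`.

PROOF of `below_cells`. Let `T = anc n q V`.  Let `l` be a list of present points with
`badP sh n τ q V l`.  By `badP_iff` some `t < q` with `bad sh τ U U' l`, `U = anc n (t + 1) V`,
`U' = anc n t V`; `T.1 ≤ U.1 ≤ U'.1`, `big 9 U' ⊆ big 9 U ⊆ big 9 T` (`big_anc`).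
CLAIM: every `p ∈ l` has `p.1 ∈ inC T`; then `w ∈ rin` is contradicted.
In all three cases the levels in `l` are at least `U.1 ≥ T.1` (for `K2r` at least `U'.1`).
Let `p ∈ l`.  It is enough that `lp sh p ⊆ closedBall (ctr T) (5 * side T)`: `lp sh p` meets
`cell p.1` (`lp_meets_cell`), which has diameter `side p.1 ≤ side T`, so
`cell p.1 ⊆ closedBall (ctr T) (6 * side T) ⊆ big 19 T`.
* `K3r`: `un sh l ⊆ big 9 U ⊆ big 9 T`.
* `K1r`: `l = [p]` and `lp sh p` meets `big 9 U' ⊆ big 9 T`.
* `K2r`: `un sh l` meets `big 9 U' ⊆ big 9 T`, `l` is a walk, not empty.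
  In the last two cases `l` is a walk of levels at least `T.1` which meets
  `closedBall (ctr T) (31 * side T / 2)`, so `diam (un sh l) < τ / 2 * side T ≤ side T / 16` by `hG`
  (second alternative of `Gr`), and `un sh l ⊆ closedBall (ctr T) (9 / 2 * side T + side T / 16)`.

PROOF of `kept_of`. `badP sh n τ (m + q) V l ↔ badP sh n τ m (anc n q V) l ∨ badP sh n τ q V l`
(`badP_add`, from `badP_iff` or by induction on `q`).  If `Rootr` or the first alternative holds for a list
of present points we contradict `insert_cells` with `V := anc n q V`, `T := anc n q V`, `A = univ`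
(`univ \ inC T = (inC T)ᶜ`), whose hypothesis is `big 20 T ⊆ big 9 (anc n 2 T)`: `dist (ctr T) (ctr (anc n 2 T)) ≤ side / 2`
by `ctr_anc`, and `side (anc n 2 T) = 64 ^ n * side T ≥ 64 * side T`.  The second one contradicts `below_cells`.
-/

set_option autoImplicit false

namespace Pool.Agent.H94.CD

open MeasureTheory ProbabilityTheory Metric Set
open scoped ENNReal NNReal
open Pool.Agent.Helper3.CD Pool.Agent.Helper16.CD

/-- the conditions for the last `q` block steps hold for the cells near the ancestor -/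
def rin {E : Type} (sh : E → Set Plane) (n : ℕ) (τ : ℝ) (q : ℕ) (V : Idx) : Set (Conf E) :=
  Ev (inC (anc n q V)) (badP sh n τ q V)

theorem badP_add {E : Type} (sh : E → Set Plane) (n : ℕ) (τ : ℝ) (m q : ℕ) (V : Idx)
    (l : List (Idx × E)) : badP sh n τ (m + q) V l ↔
      badP sh n τ m (anc n q V) l ∨ badP sh n τ q V l := by
  induction q generalizing V with
  | zero =>
    show badP sh n τ m V l ↔ badP sh n τ m V l ∨ False
    rw [or_false]
  | succ q ih =>
    show badP sh n τ (m + q) (par n V) l ∨ bad sh τ (par n V) V l ↔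
      badP sh n τ m (anc n q (par n V)) l ∨ (badP sh n τ q (par n V) l ∨ bad sh τ (par n V) V l)
    rw [ih, or_assoc]

private theorem I2_side_le {i j : Idx} (h : i.1 ≤ j.1) : side j ≤ side i := by
  unfold side
  exact pow_le_pow_of_le_one (by norm_num) (by norm_num) h

private theorem I2_inC {E : Type} [MeasurableSpace E] {ν : Measure E} {sh : E → Set Plane}
    (hS : IsShape ν sh) {T : Idx} {p : Idx × E} (hlev : T.1 ≤ p.1.1)
    (h : lp sh p ⊆ closedBall (ctr T) (5 * side T)) : p.1 ∈ inC T := by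
  refine ⟨hlev, ?_⟩
  obtain ⟨z, hz, hzc⟩ := lp_meets_cell hS p
  have hs := side_pos T
  have hs1 := side_pos p.1
  have h1 := I2_side_le hlev
  have h2 := mem_closedBall.1 (h hz)
  unfold cell big at hzc
  rw [mem_closedBall] at hzc
  intro y hy
  unfold cell big at hy
  rw [mem_closedBall] at hy
  unfold big
  rw [mem_closedBall]
  have h3 : dist y (ctr T) ≤ dist y (ctr p.1) + dist (ctr p.1) z + dist z (ctr T) :=
    dist_triangle4 _ _ _ _
  rw [dist_comm (ctr p.1) z] at h3
  linarith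

private theorem I2_near {E : Type} [MeasurableSpace E] {ν : Measure E} {sh : E → Set Plane}
    (hS : IsShape ν sh) {n : ℕ} {τ : ℝ} (hτ' : τ ≤ 1 / 8) {T : Idx} {w : Conf E}
    (hG : w ∈ Ev univ (Gr sh n τ T)) {l : List (Idx × E)} (hl : ∀ p ∈ l, p ∈ Sp w ∧ p.1 ∈ univ)
    (hne : l ≠ []) (hw : Walk sh l) (hlev : ∀ p ∈ l, T.1 ≤ p.1.1)
    (hmeet : (un sh l ∩ big 9 T).Nonempty) : un sh l ⊆ closedBall (ctr T) (5 * side T) := by
  have hs := side_pos T
  obtain ⟨z, hz, hz9⟩ := hmeet
  unfold big at hz9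
  have h1 : diam (un sh l) < τ / 2 * side T := by
    by_contra hcon
    push Not at hcon
    refine hG l hl (Or.inr ⟨hne, hw, hlev, ⟨z, hz, ?_⟩, hcon⟩)
    rw [mem_closedBall] at hz9 ⊢
    linarith
  intro y hy
  have h2 := dist_le_diam_of_mem (isCompact_un hS l).isBounded hy hz
  rw [mem_closedBall] at hz9 ⊢
  have h3 := dist_triangle y z (ctr T)
  have h4 : τ / 2 * side T ≤ 1 / 16 * side T := by
    apply mul_le_mul_of_nonneg_right _ hs.le
    linarith
  linarith

private theorem I2_sub {E : Type} (sh : E → Set Plane) {l : List (Idx × E)} {p : Idx × E}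
    (hp : p ∈ l) : lp sh p ⊆ un sh l := by
  intro z hz
  unfold un
  exact mem_biUnion hp hz

theorem below_cells {E : Type} [MeasurableSpace E] {ν : Measure E} {sh : E → Set Plane}
    (hS : IsShape ν sh) {n : ℕ} (hn : 1 ≤ n) {τ : ℝ} (hτ : 0 < τ) (hτ' : τ ≤ 1 / 8)
    {m q : ℕ} {V : Idx} (hV : V ∈ desc n (rootV n) (m + q)) :
    rin sh n τ q V ∩ Ev univ (Gr sh n τ (anc n q V)) ⊆ Ev univ (badP sh n τ q V) := by
  rintro w ⟨hr, hG⟩ l hl hb
  refine hr l (fun p hp => ⟨(hl p hp).1, ?_⟩) hb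
  obtain ⟨t, ht, hbad⟩ := (badP_iff sh n τ q V l).1 hb
  change bad sh τ (anc n (t + 1) V) (anc n t V) l at hbad
  have hs := side_pos (anc n q V)
  -- the ancestors
  have key : ∀ j, j ≤ q → (anc n q V).1 ≤ (anc n j V).1 ∧
      big 9 (anc n j V) ⊆ big 9 (anc n q V) := by
    intro j hj
    obtain ⟨i, rfl⟩ := Nat.exists_eq_add_of_le hj
    have h1 : anc n (j + i) V = anc n i (anc n j V) := by rw [add_comm, anc_add]
    have h2 : anc n j V ∈ desc n (rootV n) (m + i) := by
      apply anc_mem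
      have : m + i + j = m + (j + i) := by ring
      rwa [this]
    have h3 : anc n (j + i) V ∈ desc n (rootV n) m := by
      apply anc_mem
      exact hV
    refine ⟨?_, ?_⟩
    · rw [level_desc h2, level_desc h3]
      have : 3 * n * m ≤ 3 * n * (m + i) := Nat.mul_le_mul_left _ (by omega)
      omega
    · rw [h1]
      exact big_anc h2 (by norm_num)
  obtain ⟨k1, k2⟩ := key (t + 1) (by omega)
  obtain ⟨k3, k4⟩ := key t (by omega)
  have hsub5 : big 9 (anc n q V) ⊆ closedBall (ctr (anc n q V)) (5 * side (anc n q V)) := by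
    unfold big
    apply closedBall_subset_closedBall
    linarith
  rcases hbad with ⟨p', rfl, h1, h2, h3⟩ | ⟨h0, h1, h2, h3, -⟩ | ⟨h0, h1, h2, h3, -⟩
  · have hpp : p = p' := List.mem_singleton.1 hp
    subst hpp
    refine I2_inC hS (k1.trans h1) ((I2_sub sh hp).trans (I2_near hS hτ' hG hl (by simp) ?_ ?_ ?_))
    · exact List.isChain_singleton _
    · intro p' hp'
      rw [List.mem_singleton.1 hp']
      exact k1.trans h1
    · obtain ⟨z, hz, hz'⟩ := h3
      exact ⟨z, I2_sub sh hp hz, k4 hz'⟩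
  · refine I2_inC hS (k3.trans (h2 p hp))
      ((I2_sub sh hp).trans (I2_near hS hτ' hG hl h0 h1 (fun p' hp' => k3.trans (h2 p' hp')) ?_))
    obtain ⟨z, hz, hz'⟩ := h3
    exact ⟨z, hz, k4 hz'⟩
  · exact I2_inC hS (k1.trans (h2 p hp))
      ((I2_sub sh hp).trans (h3.trans (k2.trans hsub5)))

theorem kept_of {E : Type} [MeasurableSpace E] {ν : Measure E} {sh : E → Set Plane}
    (hS : IsShape ν sh) {n : ℕ} (hn : 1 ≤ n) {τ : ℝ} (hτ : 0 < τ) (hτ' : τ ≤ 1 / 8)
    {m q : ℕ} (hm : 2 ≤ m) {V : Idx} (hV : V ∈ desc n (rootV n) (m + q)) :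
    Ev (inC (anc n q V))ᶜ (fun l => Rootr sh n l ∨ badP sh n τ m (anc n q V) l) ∩
      rin sh n τ q V ∩ Ev univ (Gr sh n τ (anc n q V)) ⊆ kept sh n τ (m + q) V := by
  rintro w ⟨⟨h1, h2⟩, h3⟩ l hl h
  have hT : anc n q V ∈ desc n (rootV n) m := anc_mem hV
  have hs := side_pos (anc n q V)
  have hsub : big 20 (anc n q V) ⊆ big 9 (anc n 2 (anc n q V)) := by
    obtain ⟨b, rfl⟩ := Nat.exists_eq_add_of_le hm
    have hT' : anc n q V ∈ desc n (rootV n) (b + 2) := by
      rwa [add_comm b 2]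
    have h5 := ctr_anc hT'
    have h6 := side_anc hT'
    have h7 : (8 : ℝ) ≤ 8 ^ n := by
      calc (8 : ℝ) = 8 ^ 1 := by norm_num
        _ ≤ 8 ^ n := pow_le_pow_right₀ (by norm_num) hn
    have h8 : (64 : ℝ) ≤ ((8 : ℝ) ^ n) ^ 2 := by nlinarith
    have h9 : 64 * side (anc n q V) ≤ side (anc n 2 (anc n q V)) := by
      rw [h6]
      exact mul_le_mul_of_nonneg_right h8 hs.le
    unfold big
    apply closedBall_subset_closedBall'
    linarith
  have h4 := insert_cells hS hn hτ hτ' hm hT rfl hsub univ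
  have h5 : w ∈ Ev univ (fun l => Rootr sh n l ∨ badP sh n τ m (anc n q V) l) := by
    apply h4
    refine ⟨?_, h3⟩
    rw [← compl_eq_univ_diff]
    exact h1
  rcases h with h | h
  · exact h5 l hl (Or.inl h)
  · rcases (badP_add sh n τ m q V l).1 h with h | h
    · exact h5 l hl (Or.inr h)
    · exact below_cells hS hn hτ hτ' hV ⟨h2, h3⟩ l hl h

end Pool.Agent.H94.CD
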