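import Pool.Agent.H94.CD.I2
import Pool.Agent.Helper22.CD.Inv2
import Pool.Agent.Helper3.CD.EvShift

/-!
# CD, frame E, piece Rin: invariance of the sums of the probabilities of `rin`

PROOF of `prob_rin`. For `V ∈ desc n T q`, put `V = sft T U` with `U ∈ desc n V0 q`:
`desc n T q` is the image of `desc n V0 q` under `sft T` (induction, `child_sft`, `sft_V0`), and
`par n (sft T U) = sft T (par n U)` when `3 * n ≤ U.1` (write `U = child n (par n U) j`).
`anc n q (sft T U) = T`, `anc n q U = V0`.  `sft T '' inC V0 = inC T`: every cell of level at least `T.1` is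
`sft T i` (`exists_sft`), `cell (sft T i) = pos T '' cell i`, `big 19 (sft T V0) = pos T '' big 19 V0` (`big_sft`).
`badP sh n τ q (sft T U) (l.map (sp T)) ↔ badP sh n τ q U l` for `U.1 = 3 * n * q`, by induction on `q` with
`bad_sp`.  Then `law_Ev_image` (Helper3/CD/EvShift) with `θ = sft T`, `A = inC V0`, `B = inC T`,
measurability from `measR_badP`; `law r ν = soup (fun _ => r) (fun _ => ν)` by `rfl`.
Finally `Finset.sum_image` (`sft_inj`).
-/

set_option autoImplicit false

namespace Pool.Agent.H94.CD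

open MeasureTheory ProbabilityTheory Metric Set
open scoped ENNReal NNReal
open Pool.Agent.Helper3.CD Pool.Agent.Helper16.CD

variable {E : Type} [MeasurableSpace E] {ν : Measure E} {sh : E → Set Plane}

private theorem Rin_par {n : ℕ} {T U : Idx} (h : 3 * n ≤ U.1) :
    par n (Pool.Agent.Helper22.CD.sft T U) = Pool.Agent.Helper22.CD.sft T (par n U) := by
  obtain ⟨j, hj⟩ := exists_child n U h
  conv_lhs => rw [hj, ← Pool.Agent.Helper22.CD.child_sft]
  exact Pool.Agent.Helper16.CD.par_child n _ j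

private theorem Rin_desc (n : ℕ) (T : Idx) (q : ℕ) :
    desc n T q = (desc n V0 q).image (Pool.Agent.Helper22.CD.sft T) := by
  induction q with
  | zero => simp [desc, Pool.Agent.Helper22.CD.sft_V0]
  | succ q ih =>
    ext W
    rw [desc_succ, Finset.mem_image]
    constructor
    · rintro ⟨U, hU, j, rfl⟩
      rw [ih, Finset.mem_image] at hU
      obtain ⟨U', hU', rfl⟩ := hU
      exact ⟨child n U' j, desc_succ.2 ⟨U', hU', j, rfl⟩,
        (Pool.Agent.Helper22.CD.child_sft n T U' j).symm⟩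
    · rintro ⟨W', hW', rfl⟩
      obtain ⟨U', hU', j, rfl⟩ := desc_succ.1 hW'
      exact ⟨Pool.Agent.Helper22.CD.sft T U', by rw [ih]; exact Finset.mem_image_of_mem _ hU', j,
        (Pool.Agent.Helper22.CD.child_sft n T U' j).symm⟩

private theorem Rin_inC (T : Idx) : Pool.Agent.Helper22.CD.sft T '' inC V0 = inC T := by
  have key : ∀ i : Idx, cell (Pool.Agent.Helper22.CD.sft T i) ⊆ big 19 T ↔
      cell i ⊆ big 19 V0 := by
    intro i
    have h : big 19 T = Pool.Agent.Helper16.CD.pos T '' big 19 V0 := by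
      rw [← Pool.Agent.Helper22.CD.big_sft, Pool.Agent.Helper22.CD.sft_V0]
    unfold cell
    rw [h, Pool.Agent.Helper22.CD.big_sft,
      image_subset_image_iff (Pool.Agent.Helper22.CD.pos_inj T)]
  ext i
  constructor
  · rintro ⟨j, ⟨h1, h2⟩, rfl⟩
    exact ⟨Nat.le_add_right _ _, (key j).2 h2⟩
  · rintro ⟨h1, h2⟩
    obtain ⟨j, rfl⟩ := Pool.Agent.Helper22.CD.exists_sft h1
    exact ⟨j, ⟨Nat.zero_le _, (key j).1 h2⟩, rfl⟩

omit [MeasurableSpace E] in
private theorem Rin_badP {n : ℕ} {τ : ℝ} (hτ : 0 ≤ τ) (T : Idx) (q : ℕ) (U : Idx)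
    (hU : U ∈ desc n V0 q) (l : List (Idx × E)) :
    badP sh n τ q (Pool.Agent.Helper22.CD.sft T U) (l.map (Pool.Agent.Helper22.CD.sp T)) ↔
      badP sh n τ q U l := by
  induction q generalizing U with
  | zero => exact Iff.rfl
  | succ q ih =>
    have h1 := level_desc hU
    have h2 : 3 * n ≤ U.1 := by
      have h3 : 3 * n * 1 ≤ 3 * n * (q + 1) := Nat.mul_le_mul_left _ (by omega)
      omega
    rw [badP, badP, Rin_par h2, ih _ (par_mem_desc hU), Pool.Agent.Helper22.CD.bad_sp sh hτ]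

theorem prob_rin (hS : IsShape ν sh) (n : ℕ) {τ : ℝ} (hτ : 0 < τ) (r : ℝ≥0) (q : ℕ) (T : Idx) :
    ∑ V ∈ desc n T q, (law r ν).real (rin sh n τ q V) =
      ∑ V ∈ desc n V0 q, (law r ν).real (rin sh n τ q V) := by
  have := hS.prob
  rw [Rin_desc n T q, Finset.sum_image (fun a _ b _ h => Pool.Agent.Helper22.CD.sft_inj T h)]
  refine Finset.sum_congr rfl fun U hU => ?_
  have hTU : anc n q (Pool.Agent.Helper22.CD.sft T U) = T := by
    refine ((mem_desc_anc n q T _).1 ?_).2
    rw [Rin_desc]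
    exact Finset.mem_image_of_mem _ hU
  have hU0 : anc n q U = V0 := ((mem_desc_anc n q V0 U).1 hU).2
  unfold rin
  rw [hTU, hU0, measureReal_def, measureReal_def]
  congr 1
  exact law_Ev_image r ν (Pool.Agent.Helper22.CD.sft T) (Pool.Agent.Helper22.CD.sft_inj T)
    (inC V0) (inC T) (Rin_inC T) _ _ (Pool.Agent.Helper22.CD.measR_badP hS n hτ q U)
    (fun l _ => Rin_badP hτ.le T q U hU l)

end Pool.Agent.H94.CD
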