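import Pool.Agent.H94.CD.S1

/-!
# CD, frame E, piece S2: the second moment sum

PROOF. `D b = desc n (rootV n) b`, `B = 8 ^ n`, `x = B ^ s ≥ 1`, `x < ρ`, `Z b = ∑ V ∈ D b, p b V ≥ c₀ * ρ ^ b > 0`.
Write the sum as `∑ k ≤ b, x ^ k * M k`, `M k = ∑ V ∈ D b, ∑ W ∈ D b, if lastTouch n b V W = k then pp b V W else 0`
(`lastTouch_le`; `B ^ (s * k) = x ^ k`).

(A) `b = k + 2 + j`.  By `h1`, `M k ≤ 4 * ∑ V, p (k + 2) (anc n j V) * q j V * (∑ W, if lastTouch = k then q j W else 0)`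
`≤ 4 * 9 * (64 ^ n) ^ 2 * I j * ∑ V ∈ D b, p (k + 2) (anc n j V) * q j V` by `sum_near` with `i = 2`, `f = q j`.
By `sum_add` and `anc n j V = T` for `V ∈ desc n T j`, the last sum is
`∑ T ∈ D (k + 2), p (k + 2) T * I j = Z (k + 2) * I j`.  So `M k ≤ 36 * (64 ^ n) ^ 2 * I j ^ 2 * Z (k + 2)`.
By `h3`, summed over `V ∈ D b`: `Z b ≥ 1 / 2 * Z (k + 2) * I j`.  So `(I j * Z (k + 2)) ^ 2 ≤ 4 * Z b ^ 2` and
`M k ≤ 144 * (64 ^ n) ^ 2 * Z b ^ 2 / Z (k + 2) ≤ 144 * (64 ^ n) ^ 2 / (c₀ * ρ ^ 2) * Z b ^ 2 / ρ ^ k`.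
The sum of `x ^ k * M k` over these `k` is at most
`144 * (64 ^ n) ^ 2 / (c₀ * ρ ^ 2) * Z b ^ 2 * ∑ (x / ρ) ^ k`, a geometric series with ratio `< 1`.

(B) `b = k + i`, `i ∈ {0, 1}`.  By `h2` and `sum_near` with `j = 0`, `f = 1`, `I = 1`:
`M k ≤ 9 * (64 ^ n) ^ i * Z b ≤ 9 * 64 ^ n * Z b`, and `x ^ k ≤ x ^ b ≤ ρ ^ b ≤ Z b / c₀`.  So these at
most two terms give at most `18 * 64 ^ n / c₀ * Z b ^ 2`.
-/

set_option autoImplicit false

namespace Pool.Agent.H94.CD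

open MeasureTheory ProbabilityTheory Metric Set
open scoped ENNReal NNReal
open Pool.Agent.Helper3.CD Pool.Agent.Helper16.CD

/-- case (A): `b = k + 2 + j` -/
private theorem S2_far {n : ℕ} {c₀ ρ : ℝ} (hc : 0 < c₀) (hρ0 : 0 < ρ)
    (p q : ℕ → Idx → ℝ) (pp : ℕ → Idx → Idx → ℝ) (I : ℕ → ℝ)
    (hp : ∀ b V, 0 ≤ p b V) (hq : ∀ b V, 0 ≤ q b V)
    (hI : ∀ j T, ∑ V ∈ desc n T j, q j V = I j)
    (hZ : ∀ b, c₀ * ρ ^ b ≤ ∑ V ∈ desc n (rootV n) b, p b V)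
    (h1 : ∀ k j V W, V ∈ desc n (rootV n) (k + 2 + j) → W ∈ desc n (rootV n) (k + 2 + j) →
      lastTouch n (k + 2 + j) V W = k →
      pp (k + 2 + j) V W ≤ 4 * (p (k + 2) (anc n j V) * q j V * q j W))
    (h3 : ∀ k j V, V ∈ desc n (rootV n) (k + 2 + j) →
      1 / 2 * (p (k + 2) (anc n j V) * q j V) ≤ p (k + 2 + j) V) (k j : ℕ) :
    ∑ V ∈ desc n (rootV n) (k + 2 + j), ∑ W ∈ desc n (rootV n) (k + 2 + j),
      (if lastTouch n (k + 2 + j) V W = k then pp (k + 2 + j) V W else 0) ≤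
        144 * ((64 : ℝ) ^ n) ^ 2 / (c₀ * ρ ^ 2) *
          (∑ V ∈ desc n (rootV n) (k + 2 + j), p (k + 2 + j) V) ^ 2 / ρ ^ k := by
  set Z := ∑ V ∈ desc n (rootV n) (k + 2 + j), p (k + 2 + j) V with hZdef
  set Z2 := ∑ V ∈ desc n (rootV n) (k + 2), p (k + 2) V with hZ2
  set S := ∑ V ∈ desc n (rootV n) (k + 2 + j), p (k + 2) (anc n j V) * q j V with hS
  have hI0 : 0 ≤ I j := by
    rw [← hI j (rootV n)]
    exact Finset.sum_nonneg fun V _ => hq j V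
  have hSeq : S = Z2 * I j := by
    rw [hS, sum_add, hZ2, Finset.sum_mul]
    refine Finset.sum_congr rfl fun U _ => ?_
    rw [← hI j U, Finset.mul_sum]
    refine Finset.sum_congr rfl fun V hV => ?_
    rw [((mem_desc_anc n j U V).1 hV).2]
  have hM : ∑ V ∈ desc n (rootV n) (k + 2 + j), ∑ W ∈ desc n (rootV n) (k + 2 + j),
      (if lastTouch n (k + 2 + j) V W = k then pp (k + 2 + j) V W else 0) ≤
        36 * ((64 : ℝ) ^ n) ^ 2 * I j * S := by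
    rw [hS, Finset.mul_sum]
    refine Finset.sum_le_sum fun V hV => ?_
    have e1 : ∑ W ∈ desc n (rootV n) (k + 2 + j),
        (if lastTouch n (k + 2 + j) V W = k then pp (k + 2 + j) V W else 0) ≤
        ∑ W ∈ desc n (rootV n) (k + 2 + j), 4 * (p (k + 2) (anc n j V) * q j V) *
          (if lastTouch n (k + 2 + j) V W = k then q j W else 0) := by
      refine Finset.sum_le_sum fun W hW => ?_
      split_ifs with h
      · have := h1 k j V W hV hW h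
        linarith
      · rw [mul_zero]
    rw [← Finset.mul_sum] at e1
    have e2 := sum_near hV (q j) (hq j) (I j) hI0 fun T _ => hI j T
    have e3 : 0 ≤ 4 * (p (k + 2) (anc n j V) * q j V) := by
      have := mul_nonneg (hp (k + 2) (anc n j V)) (hq j V)
      linarith
    have e4 := mul_le_mul_of_nonneg_left e2 e3
    linarith
  have h3' : 1 / 2 * S ≤ Z := by
    rw [hS, Finset.mul_sum, hZdef]
    exact Finset.sum_le_sum fun V hV => h3 k j V hV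
  have hZ2pos : 0 < Z2 := lt_of_lt_of_le (by positivity) (hZ (k + 2))
  have hIZ : I j * Z2 ≤ 2 * Z := by
    rw [hSeq] at h3'
    linarith
  have hIZ0 : 0 ≤ I j * Z2 := mul_nonneg hI0 hZ2pos.le
  have hsq : (I j * Z2) ^ 2 ≤ 4 * Z ^ 2 := by
    have := pow_le_pow_left₀ hIZ0 hIZ 2
    linarith [mul_pow (2 : ℝ) Z 2]
  rw [hSeq] at hM
  set M := ∑ V ∈ desc n (rootV n) (k + 2 + j), ∑ W ∈ desc n (rootV n) (k + 2 + j),
      (if lastTouch n (k + 2 + j) V W = k then pp (k + 2 + j) V W else 0) with hMdef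
  have h64 : (0 : ℝ) < ((64 : ℝ) ^ n) ^ 2 := by positivity
  have hMZ : M * Z2 ≤ 144 * ((64 : ℝ) ^ n) ^ 2 * Z ^ 2 := by
    calc M * Z2 ≤ (36 * ((64 : ℝ) ^ n) ^ 2 * I j * (Z2 * I j)) * Z2 :=
          mul_le_mul_of_nonneg_right hM hZ2pos.le
      _ = 36 * ((64 : ℝ) ^ n) ^ 2 * (I j * Z2) ^ 2 := by ring
      _ ≤ 36 * ((64 : ℝ) ^ n) ^ 2 * (4 * Z ^ 2) :=
          mul_le_mul_of_nonneg_left hsq (by positivity)
      _ = 144 * ((64 : ℝ) ^ n) ^ 2 * Z ^ 2 := by ring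
  have hM2 : M ≤ 144 * ((64 : ℝ) ^ n) ^ 2 * Z ^ 2 / Z2 := by
    rw [le_div_iff₀ hZ2pos]
    exact hMZ
  refine hM2.trans ?_
  calc 144 * ((64 : ℝ) ^ n) ^ 2 * Z ^ 2 / Z2 ≤
        144 * ((64 : ℝ) ^ n) ^ 2 * Z ^ 2 / (c₀ * ρ ^ (k + 2)) :=
        div_le_div_of_nonneg_left (by positivity) (by positivity) (hZ (k + 2))
    _ = 144 * ((64 : ℝ) ^ n) ^ 2 / (c₀ * ρ ^ 2) * Z ^ 2 / ρ ^ k := by
        rw [pow_add]
        field_simp

/-- case (B): `b = k + i` with `i ≤ 1` -/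
private theorem S2_near {n : ℕ} (p : ℕ → Idx → ℝ) (pp : ℕ → Idx → Idx → ℝ)
    (hp : ∀ b V, 0 ≤ p b V) (h2 : ∀ b V W, pp b V W ≤ p b V) (k i : ℕ) (hi : i ≤ 1) :
    ∑ V ∈ desc n (rootV n) (k + i), ∑ W ∈ desc n (rootV n) (k + i),
      (if lastTouch n (k + i) V W = k then pp (k + i) V W else 0) ≤
        9 * (64 : ℝ) ^ n * ∑ V ∈ desc n (rootV n) (k + i), p (k + i) V := by
  rw [Finset.mul_sum]
  refine Finset.sum_le_sum fun V hV => ?_
  have e1 : ∑ W ∈ desc n (rootV n) (k + i),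
      (if lastTouch n (k + i) V W = k then pp (k + i) V W else 0) ≤
      ∑ W ∈ desc n (rootV n) (k + i), p (k + i) V *
        (if lastTouch n (k + i) V W = k then 1 else 0) := by
    refine Finset.sum_le_sum fun W _ => ?_
    split_ifs with h
    · rw [mul_one]
      exact h2 _ _ _
    · rw [mul_zero]
  rw [← Finset.mul_sum] at e1
  have e2 := sum_near (n := n) (k := k) (i := i) (j := 0) (V := V) hV (fun _ => 1)
    (fun _ => zero_le_one) 1 zero_le_one (fun T _ => by simp [desc])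
  have e3 : ((64 : ℝ) ^ n) ^ i ≤ (64 : ℝ) ^ n := by
    have h64 : (1 : ℝ) ≤ (64 : ℝ) ^ n := one_le_pow₀ (by norm_num)
    calc ((64 : ℝ) ^ n) ^ i ≤ ((64 : ℝ) ^ n) ^ 1 := pow_le_pow_right₀ h64 hi
      _ = (64 : ℝ) ^ n := pow_one _
  have e4 : ∑ W ∈ desc n (rootV n) (k + i), (if lastTouch n (k + i) V W = k then (1 : ℝ) else 0) ≤
      9 * (64 : ℝ) ^ n := by
    refine e2.trans ?_
    rw [mul_one]
    linarith
  calc ∑ W ∈ desc n (rootV n) (k + i),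
        (if lastTouch n (k + i) V W = k then pp (k + i) V W else 0)
      ≤ p (k + i) V * (9 * (64 : ℝ) ^ n) := e1.trans (mul_le_mul_of_nonneg_left e4 (hp _ _))
    _ = 9 * (64 : ℝ) ^ n * p (k + i) V := by ring

theorem energy_sum {n : ℕ} (hn : 1 ≤ n) {s : ℝ} (hs : 0 < s) {ρ c₀ : ℝ} (hc : 0 < c₀)
    (hρ : ((8 : ℝ) ^ n) ^ s < ρ) (p q : ℕ → Idx → ℝ) (pp : ℕ → Idx → Idx → ℝ) (I : ℕ → ℝ)
    (hp : ∀ b V, 0 ≤ p b V) (hq : ∀ b V, 0 ≤ q b V)
    (hI : ∀ j T, ∑ V ∈ desc n T j, q j V = I j)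
    (hZ : ∀ b, c₀ * ρ ^ b ≤ ∑ V ∈ desc n (rootV n) b, p b V)
    (h1 : ∀ k j V W, V ∈ desc n (rootV n) (k + 2 + j) → W ∈ desc n (rootV n) (k + 2 + j) →
      lastTouch n (k + 2 + j) V W = k →
      pp (k + 2 + j) V W ≤ 4 * (p (k + 2) (anc n j V) * q j V * q j W))
    (h2 : ∀ b V W, pp b V W ≤ p b V)
    (h3 : ∀ k j V, V ∈ desc n (rootV n) (k + 2 + j) →
      1 / 2 * (p (k + 2) (anc n j V) * q j V) ≤ p (k + 2 + j) V) :
    ∃ C : ℝ, ∀ b, ∑ V ∈ desc n (rootV n) b, ∑ W ∈ desc n (rootV n) b,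
      pp b V W * ((8 : ℝ) ^ n) ^ (s * lastTouch n b V W) ≤
        C * (∑ V ∈ desc n (rootV n) b, p b V) ^ 2 := by
  classical
  set x : ℝ := ((8 : ℝ) ^ n) ^ s with hx
  have hB : (1 : ℝ) ≤ (8 : ℝ) ^ n := one_le_pow₀ (by norm_num)
  have hx1 : 1 ≤ x := Real.one_le_rpow hB hs.le
  have hx0 : 0 < x := by linarith
  have hρ0 : 0 < ρ := by linarith
  have hr : x / ρ < 1 := by rw [div_lt_one hρ0]; exact hρ
  have hr0 : 0 ≤ x / ρ := by positivity
  set K1 : ℝ := 144 * ((64 : ℝ) ^ n) ^ 2 / (c₀ * ρ ^ 2) with hK1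
  have hK1p : 0 ≤ K1 := by positivity
  set K2 : ℝ := 9 * (64 : ℝ) ^ n / c₀ with hK2
  have hK2p : 0 ≤ K2 := by positivity
  refine ⟨K1 * (1 - x / ρ)⁻¹ + 2 * K2, fun b => ?_⟩
  set Z := ∑ V ∈ desc n (rootV n) b, p b V with hZdef
  set M : ℕ → ℝ := fun k => ∑ V ∈ desc n (rootV n) b, ∑ W ∈ desc n (rootV n) b,
    (if lastTouch n b V W = k then pp b V W else 0) with hM
  have hZ0 : 0 < Z := lt_of_lt_of_le (by positivity) (hZ b)
  -- the sum as a sum over `k`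
  have hsum : ∑ V ∈ desc n (rootV n) b, ∑ W ∈ desc n (rootV n) b,
      pp b V W * ((8 : ℝ) ^ n) ^ (s * lastTouch n b V W) = ∑ k ∈ Finset.range (b + 1), x ^ k * M k := by
    have e1 : ∀ V W, pp b V W * ((8 : ℝ) ^ n) ^ (s * lastTouch n b V W) =
        ∑ k ∈ Finset.range (b + 1), x ^ k * (if lastTouch n b V W = k then pp b V W else 0) := by
      intro V W
      rw [Finset.sum_eq_single (lastTouch n b V W)]
      · rw [if_pos rfl, Real.rpow_mul (by positivity), Real.rpow_natCast, mul_comm]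
      · intro k _ hk
        rw [if_neg (Ne.symm hk), mul_zero]
      · intro h
        exact absurd (Finset.mem_range.2 (Nat.lt_succ_of_le (lastTouch_le n b V W))) h
    calc ∑ V ∈ desc n (rootV n) b, ∑ W ∈ desc n (rootV n) b,
          pp b V W * ((8 : ℝ) ^ n) ^ (s * lastTouch n b V W)
        = ∑ V ∈ desc n (rootV n) b, ∑ W ∈ desc n (rootV n) b, ∑ k ∈ Finset.range (b + 1),
            x ^ k * (if lastTouch n b V W = k then pp b V W else 0) :=
          Finset.sum_congr rfl fun V _ => Finset.sum_congr rfl fun W _ => e1 V W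
      _ = ∑ V ∈ desc n (rootV n) b, ∑ k ∈ Finset.range (b + 1), ∑ W ∈ desc n (rootV n) b,
            x ^ k * (if lastTouch n b V W = k then pp b V W else 0) :=
          Finset.sum_congr rfl fun V _ => Finset.sum_comm
      _ = ∑ k ∈ Finset.range (b + 1), ∑ V ∈ desc n (rootV n) b, ∑ W ∈ desc n (rootV n) b,
            x ^ k * (if lastTouch n b V W = k then pp b V W else 0) := Finset.sum_comm
      _ = ∑ k ∈ Finset.range (b + 1), x ^ k * M k := by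
          refine Finset.sum_congr rfl fun k _ => ?_
          rw [hM]
          simp only [Finset.mul_sum]
  have hterm : ∀ k ∈ Finset.range (b + 1), x ^ k * M k ≤
      K1 * Z ^ 2 * (x / ρ) ^ k + (if b ≤ k + 1 then K2 * Z ^ 2 else 0) := by
    intro k hk
    rw [Finset.mem_range] at hk
    by_cases hb : b ≤ k + 1
    · rw [if_pos hb]
      obtain ⟨i, hi, hi'⟩ : ∃ i, b = k + i ∧ i ≤ 1 := ⟨b - k, by omega, by omega⟩
      have e1 := S2_near p pp hp h2 k i hi' (n := n)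
      rw [← hi] at e1
      have e2 : x ^ k ≤ Z / c₀ := by
        rw [le_div_iff₀ hc]
        calc x ^ k * c₀ ≤ ρ ^ b * c₀ := by
              refine mul_le_mul_of_nonneg_right ?_ hc.le
              calc x ^ k ≤ x ^ b := pow_le_pow_right₀ hx1 (by omega)
                _ ≤ ρ ^ b := pow_le_pow_left₀ hx0.le hρ.le b
          _ = c₀ * ρ ^ b := mul_comm _ _
          _ ≤ Z := hZ b
      have e3 : M k ≤ 9 * (64 : ℝ) ^ n * Z := e1
      have e4 : x ^ k * M k ≤ K2 * Z ^ 2 := by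
        calc x ^ k * M k ≤ x ^ k * (9 * (64 : ℝ) ^ n * Z) :=
              mul_le_mul_of_nonneg_left e3 (by positivity)
          _ ≤ Z / c₀ * (9 * (64 : ℝ) ^ n * Z) := mul_le_mul_of_nonneg_right e2 (by positivity)
          _ = K2 * Z ^ 2 := by rw [hK2]; field_simp
      have e5 : 0 ≤ K1 * Z ^ 2 * (x / ρ) ^ k := by positivity
      linarith
    · rw [if_neg hb, add_zero]
      obtain ⟨j, hj⟩ : ∃ j, b = k + 2 + j := ⟨b - (k + 2), by omega⟩
      have e1 := S2_far hc hρ0 p q pp I hp hq hI hZ h1 h3 k j (n := n)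
      rw [← hj] at e1
      have e2 : M k ≤ K1 * Z ^ 2 / ρ ^ k := e1
      calc x ^ k * M k ≤ x ^ k * (K1 * Z ^ 2 / ρ ^ k) :=
            mul_le_mul_of_nonneg_left e2 (by positivity)
        _ = K1 * Z ^ 2 * (x / ρ) ^ k := by rw [div_pow]; field_simp
  rw [hsum]
  have hgeo : ∑ k ∈ Finset.range (b + 1), (x / ρ) ^ k ≤ (1 - x / ρ)⁻¹ := by
    have h := (summable_geometric_of_lt_one hr0 hr).sum_le_tsum (Finset.range (b + 1))
      (fun k _ => pow_nonneg hr0 k)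
    rwa [tsum_geometric_of_lt_one hr0 hr] at h
  have hcard : ∑ k ∈ Finset.range (b + 1), (if b ≤ k + 1 then K2 * Z ^ 2 else 0) ≤
      2 * (K2 * Z ^ 2) := by
    rw [← Finset.sum_filter, Finset.sum_const, nsmul_eq_mul]
    refine mul_le_mul_of_nonneg_right ?_ (by positivity)
    have h5 : (Finset.range (b + 1)).filter (fun k => b ≤ k + 1) ⊆ {b - 1, b} := by
      intro k hk
      rw [Finset.mem_filter, Finset.mem_range] at hk
      rw [Finset.mem_insert, Finset.mem_singleton]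
      omega
    have h6 := (Finset.card_le_card h5).trans Finset.card_le_two
    exact_mod_cast h6
  calc ∑ k ∈ Finset.range (b + 1), x ^ k * M k
      ≤ ∑ k ∈ Finset.range (b + 1), (K1 * Z ^ 2 * (x / ρ) ^ k +
          (if b ≤ k + 1 then K2 * Z ^ 2 else 0)) := Finset.sum_le_sum hterm
    _ = K1 * Z ^ 2 * ∑ k ∈ Finset.range (b + 1), (x / ρ) ^ k +
          ∑ k ∈ Finset.range (b + 1), (if b ≤ k + 1 then K2 * Z ^ 2 else 0) := by
        rw [Finset.sum_add_distrib, Finset.mul_sum]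
    _ ≤ K1 * Z ^ 2 * (1 - x / ρ)⁻¹ + 2 * (K2 * Z ^ 2) :=
        add_le_add (mul_le_mul_of_nonneg_left hgeo (by positivity)) hcard
    _ = (K1 * (1 - x / ρ)⁻¹ + 2 * K2) * Z ^ 2 := by ring

end Pool.Agent.H94.CD
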