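import Pool.Agent.Helper16.CD.KDefs
import Pool.Agent.H94.CD.E5c
import Pool.Agent.H94.CD.E5p
import Pool.Agent.H94.CD.E3
import Pool.Agent.H94.CD.EM
import Pool.Agent.H94.CD.H
import Pool.Agent.H94.CD.Rin
import Pool.Agent.H94.CD.S2

/-!
# CD, frame E: the lower bound for the dimension
-/

set_option autoImplicit false

namespace Pool.Agent.H94.CD

open MeasureTheory ProbabilityTheory Metric Set Filter
open scoped ENNReal NNReal
open Pool.Agent.Helper3.CD Pool.Agent.Helper16.CD

theorem limit_subset (hK : Iface.KeptSubset) {E : Type} [MeasurableSpace E] {ν : Measure E}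
    {sh : E → Set Plane} (hS : IsShape ν sh) {n : ℕ} (hn : 1 ≤ n) {τ : ℝ} (hτ : 0 < τ)
    (hτ' : τ ≤ 1 / 8) (w : Conf E) :
    (⋂ b, ⋃ V ∈ sel (desc n (rootV n) b) (kept sh n τ b) w, cell V) ⊆ Xs sh w := by
  intro x hx
  rw [mem_iInter] at hx
  refine ⟨?_, ?_⟩
  · have h0 := hx 0
    simp only [mem_iUnion, exists_prop] at h0
    obtain ⟨V, hV, hxV⟩ := h0
    have h1 := ((mem_sel _ _ _ _).1 hV).1
    have h2 : V = rootV n := by
      simpa [desc] using h1
    subst h2
    rw [mem_cell] at hxV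
    obtain ⟨⟨a1, a2⟩, a3, a4⟩ := hxV
    have hside : side (rootV n) ≤ 1 / 8 := by
      unfold side rootV
      calc ((1 : ℝ) / 2) ^ (3 * n) ≤ (1 / 2) ^ 3 :=
            pow_le_pow_of_le_one (by norm_num) (by norm_num) (by omega)
        _ = 1 / 8 := by norm_num
    have hsp : 0 < side (rootV n) := side_pos _
    simp only [rootV, Int.cast_zero, mul_zero, zero_add, mul_one] at a1 a2 a3 a4 hside
    change x.1 ^ 2 + x.2 ^ 2 ≤ 1
    nlinarith
  · rintro K ⟨p, hp, rfl, hpD⟩
    have hb := hx p.1.1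
    simp only [mem_iUnion, exists_prop] at hb
    obtain ⟨V, hV, hxV⟩ := hb
    obtain ⟨hV1, hV2⟩ := (mem_sel _ _ _ _).1 hV
    have hlev : p.1.1 < V.1 := by
      rw [level_desc hV1]
      change p.1.1 < 3 * n + 3 * n * p.1.1
      nlinarith
    exact hK E ν sh hS n hn τ hτ hτ' w _ V hV1 hV2 x hxV p hp hpD hlev

theorem lower_of (hK : Iface.KeptSubset) : Iface.Lower := by
  intro E _ ν sh hS n hn τ hτ hτ' r s hs hsum hG hR
  haveI := hS.prob
  have hx : ((8 : ℝ) ^ n) ^ s <
      ∑ j : J n, (law r ν).real (Ev univ (bad sh τ V0 (child n V0 j))) := by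
    rwa [← Real.rpow_natCast, ← Real.rpow_mul (by norm_num)]
  have hkm : ∀ b, ∀ V : Idx, MeasurableSet (kept sh n τ b V) := fun b V =>
    Pool.Agent.Helper22.CD.measurableSet_kept hS n hτ b V
  have hx0 : 0 < ((8 : ℝ) ^ n) ^ s := by positivity
  obtain ⟨C, hC⟩ := energy_sum (n := n) (by omega) hs (c₀ := 1 / 2) (by norm_num) hx
    (fun b V => (law r ν).real (kept sh n τ b V)) (fun q V => (law r ν).real (rin sh n τ q V))
    (fun b V W => (law r ν).real (kept sh n τ b V ∩ kept sh n τ b W))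
    (fun q => ∑ V ∈ desc n V0 q, (law r ν).real (rin sh n τ q V))
    (fun _ _ => measureReal_nonneg) (fun _ _ => measureReal_nonneg)
    (fun j T => prob_rin hS n hτ r j T)
    (fun b => sum_kept_ge hS hτ hR b)
    (fun k j V W hV hW hk => prob_pair_le hS hn hτ hτ' hG hV hW hk)
    (fun b V W => measureReal_mono inter_subset_left)
    (fun k j V hV => prob_kept_ge hS (by omega) hτ hτ' hG hV)
  obtain ⟨c, hc, hm, hpos⟩ := second_moment (law r ν)
    (fun b w => ((sel (desc n (rootV n) b) (kept sh n τ b) w).card : ℝ))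
    (fun b w => energy n b s (sel (desc n (rootV n) b) (kept sh n τ b) w))
    (fun b => measurable_card_sel _ _ fun V _ => hkm b V)
    (fun b => measurable_energy_sel _ _ (fun V _ => hkm b V) n b s)
    (fun b w => Nat.cast_nonneg _)
    (fun b w => card_sq_le_energy n b hs _)
    (fun b => integrable_energy_sel _ _ _ (fun V _ => hkm b V) n b s) C
    (fun b => by
      rw [integral_energy_sel _ _ _ (fun V _ => hkm b V),
        integral_card_sel _ _ _ (fun V _ => hkm b V)]
      exact hC b)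
    (fun b => by
      rw [integral_card_sel _ _ _ (fun V _ => hkm b V)]
      refine lt_of_lt_of_le ?_ (sum_kept_ge hS hτ hR b)
      have := hx0.trans hx
      positivity)
  refine ⟨_, hm, hpos, fun w hw => ?_⟩
  have h1 := hausdorff_pos n (by omega) s hs
    (fun b => sel (desc n (rootV n) b) (kept sh n τ b) w)
    (fun b V hV => ((mem_sel _ _ _ _).1 hV).1)
    (fun b V hV => by
      obtain ⟨hV1, hV2⟩ := (mem_sel _ _ _ _).1 hV
      refine (mem_sel _ _ _ _).2 ⟨par_mem_desc hV1, ?_⟩
      intro l hl hR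
      refine hV2 l hl ?_
      rcases hR with hR | hR
      · exact Or.inl hR
      · exact Or.inr (Or.inl hR))
    c hc (by
      refine hw.mono fun b hb => ⟨?_, hb.2⟩
      exact_mod_cast hb.1)
  have h2 : ((s.toNNReal : ℝ≥0) : ℝ) = s := Real.coe_toNNReal _ hs.le
  have h3 : ENNReal.ofReal s ≤
      dimH (⋂ b, ⋃ V ∈ sel (desc n (rootV n) b) (kept sh n τ b) w, cell V) := by
    refine le_dimH_of_hausdorffMeasure_ne_zero (d := s.toNNReal) ?_
    rw [h2]
    exact h1
  exact h3.trans (dimH_mono (limit_subset hK hS (by omega) hτ hτ' w))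

end Pool.Agent.H94.CD
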