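import Pool.Agent.H94.CD.Tree

/-!
# CD, frame E, piece S1: sums over the squares near a given one

PROOF. If `W ∈ desc n (rootV n) (k + i + j)` has `lastTouch n (k + i + j) V W = k` then
`Touch (anc n (i + j) V) (anc n (i + j) W)` (`touch_lastTouch`, `k + i + j - k = i + j`).  As `f ≥ 0` the sum is
at most the sum over all `W` in `desc n (rootV n) (k + (i + j))` with that property.  By `sum_add`
twice (apply it to `fun W => if Touch (anc n (i + j) V) (anc n (i + j) W) then f W else 0`; `k + i + j` is
`k + (i + j)`), it is `∑ S ∈ desc n (rootV n) k, ∑ U ∈ desc n S i, ∑ W ∈ desc n U j, ..`, and `anc n (i + j) W = S`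
there (`mem_desc_anc`, `anc_add`).  So it is the sum over `S ∈ desc n (rootV n) k` with
`Touch (anc n (i + j) V) S` of `∑ U ∈ desc n S i, ∑ W ∈ desc n U j, f W = ∑ U ∈ desc n S i, I`
(`U ∈ desc n (rootV n) (k + i)` by `mem_desc_anc`, hypothesis `hI`)
`= (64 ^ n) ^ i * I` (`card_desc`).  There are at most nine such `S` (`card_touch`, the levels are equal by
`level_desc`), and `0 ≤ I` if there is one.  If there is none the sum is `0`, and `0 ≤ I` by `hI0`.
-/

set_option autoImplicit false

namespace Pool.Agent.H94.CD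

open MeasureTheory ProbabilityTheory Metric Set
open scoped ENNReal NNReal
open Pool.Agent.Helper3.CD Pool.Agent.Helper16.CD

private theorem S1_mem {n k i : ℕ} {S U : Idx} (hS : S ∈ desc n (rootV n) k)
    (hU : U ∈ desc n S i) : U ∈ desc n (rootV n) (k + i) := by
  rw [mem_desc_anc] at hS hU ⊢
  refine ⟨?_, ?_⟩
  · rw [hU.1, hS.1]
    ring
  · rw [anc_add, hU.2, hS.2]

theorem sum_near {n k i j : ℕ} {V : Idx} (hV : V ∈ desc n (rootV n) (k + i + j))
    (f : Idx → ℝ) (hf : ∀ W, 0 ≤ f W) (I : ℝ) (hI0 : 0 ≤ I)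
    (hI : ∀ T ∈ desc n (rootV n) (k + i), ∑ W ∈ desc n T j, f W = I) :
    ∑ W ∈ desc n (rootV n) (k + i + j),
      (if lastTouch n (k + i + j) V W = k then f W else 0) ≤ 9 * ((64 : ℝ) ^ n) ^ i * I := by
  classical
  have h1 : ∑ W ∈ desc n (rootV n) (k + i + j),
      (if lastTouch n (k + i + j) V W = k then f W else 0) ≤
      ∑ W ∈ desc n (rootV n) (k + i + j),
        (if Touch (anc n (i + j) V) (anc n (i + j) W) then f W else 0) := by
    refine Finset.sum_le_sum fun W hW => ?_
    by_cases h : lastTouch n (k + i + j) V W = k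
    · have h2 := touch_lastTouch hV hW
      have h3 : k + i + j - k = i + j := by omega
      rw [h, h3] at h2
      rw [if_pos h, if_pos h2]
    · rw [if_neg h]
      split_ifs
      · exact hf W
      · exact le_refl _
  have hVm : V ∈ desc n (rootV n) (k + (i + j)) := by rwa [← add_assoc]
  have hA := anc_mem hVm
  have h2 : ∑ W ∈ desc n (rootV n) (k + i + j),
        (if Touch (anc n (i + j) V) (anc n (i + j) W) then f W else 0) =
      ∑ S ∈ desc n (rootV n) k,
        (if Touch (anc n (i + j) V) S then ((64 : ℝ) ^ n) ^ i * I else 0) := by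
    rw [add_assoc, sum_add]
    refine Finset.sum_congr rfl fun S hS => ?_
    have h3 : ∀ W ∈ desc n S (i + j), anc n (i + j) W = S := fun W hW =>
      ((mem_desc_anc n (i + j) S W).1 hW).2
    by_cases hT : Touch (anc n (i + j) V) S
    · rw [if_pos hT]
      have h4 : ∑ W ∈ desc n S (i + j),
          (if Touch (anc n (i + j) V) (anc n (i + j) W) then f W else 0) =
          ∑ W ∈ desc n S (i + j), f W :=
        Finset.sum_congr rfl fun W hW => by rw [h3 W hW, if_pos hT]
      rw [h4, sum_add, Finset.sum_congr rfl fun U hU => hI U (S1_mem hS hU), Finset.sum_const,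
        card_desc, nsmul_eq_mul]
      push_cast
      ring
    · rw [if_neg hT]
      exact Finset.sum_eq_zero fun W hW => by rw [h3 W hW, if_neg hT]
  have h5 : ((desc n (rootV n) k).filter fun S => Touch (anc n (i + j) V) S).card ≤ 9 := by
    refine card_touch (anc n (i + j) V) _ fun W hW => ?_
    rw [Finset.mem_filter] at hW
    exact ⟨by rw [level_desc hW.1, level_desc hA], hW.2⟩
  have h6 : (((desc n (rootV n) k).filter fun S => Touch (anc n (i + j) V) S).card : ℝ) ≤ 9 := by
    exact_mod_cast h5
  have h7 : (0 : ℝ) ≤ ((64 : ℝ) ^ n) ^ i * I := by positivity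
  refine h1.trans ?_
  rw [h2, ← Finset.sum_filter, Finset.sum_const, nsmul_eq_mul, mul_assoc]
  exact mul_le_mul_of_nonneg_right h6 h7

end Pool.Agent.H94.CD
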