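import Pool.Agent.Helper16.CD.Desc

/-!
# CD, frame E (lower bound), piece ET: the tree of block squares

Supplement of `Helper16/CD/Desc.lean` (imported, to be used as a black box).
`anc n j V`: the ancestor of `V`, `j` block steps up.  `Touch V W` (used for squares of the same level):
the closed squares meet.  `lastTouch n b V W`: the last `k ≤ b` such that the ancestors of depth `k` of
`V` and `W` (of depth `b`) touch.

PROOFS.  `mem_desc_anc`: induction on `b` with `desc_succ`, `par_child`, `exists_child`.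
`sum_add`: induction on `b` with `sum_desc`.
`card_touch`: the map `W ↦ (W.2.1 - V.2.1, W.2.2 - V.2.2)` is injective on `s` with values in
`{-1, 0, 1} ×ˢ {-1, 0, 1}`.
`mem_cell`: `cell V = closedBall (ctr V) (side V / 2)` in the sup metric of `ℝ × ℝ`, and
`ctr V = (side V * (V.2.1 + 1 / 2), side V * (V.2.2 + 1 / 2))`.
`cell_par` is `big_par` with `t = 1`, `cell_anc` by induction on `j`
(the level of `W ∈ desc n V (b + j)` is at least `3 * n * j`).
`ctr_anc`: iterate `cell`-inclusion: the centre of `W` is in `cell W ⊆ cell (anc n j W)`.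
-/

set_option autoImplicit false

namespace Pool.Agent.H94.CD

open MeasureTheory ProbabilityTheory Metric Set
open scoped ENNReal NNReal
open Pool.Agent.Helper3.CD Pool.Agent.Helper16.CD

/-- block ancestor -/
def anc (n j : ℕ) (V : Idx) : Idx := (par n)^[j] V

/-- squares of the same level which meet -/
def Touch (V W : Idx) : Prop := |V.2.1 - W.2.1| ≤ 1 ∧ |V.2.2 - W.2.2| ≤ 1

open Classical in
/-- last depth at which the ancestors touch -/
noncomputable def lastTouch (n b : ℕ) (V W : Idx) : ℕ :=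
  Nat.findGreatest (fun k => Touch (anc n (b - k) V) (anc n (b - k) W)) b

lemma anc_zero (n : ℕ) (V : Idx) : anc n 0 V = V := rfl

lemma anc_succ (n j : ℕ) (V : Idx) : anc n (j + 1) V = anc n j (par n V) := rfl

lemma anc_succ' (n j : ℕ) (V : Idx) : anc n (j + 1) V = par n (anc n j V) := by
  unfold anc
  rw [Function.iterate_succ_apply']

lemma anc_add (n i j : ℕ) (V : Idx) : anc n (i + j) V = anc n i (anc n j V) := by
  unfold anc
  rw [Function.iterate_add_apply]

theorem mem_desc_anc (n b : ℕ) (V W : Idx) :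
    W ∈ desc n V b ↔ W.1 = V.1 + 3 * n * b ∧ anc n b W = V := by
  induction b generalizing W with
  | zero =>
    simp only [desc, Finset.mem_singleton, mul_zero, add_zero, anc_zero]
    exact ⟨fun h => ⟨by rw [h], h⟩, fun h => h.2⟩
  | succ b ih =>
    rw [desc_succ]
    constructor
    · rintro ⟨U, hU, j, rfl⟩
      rw [ih] at hU
      refine ⟨?_, ?_⟩
      · show U.1 + 3 * n = V.1 + 3 * n * (b + 1)
        rw [hU.1]
        ring
      · rw [anc_succ, par_child]
        exact hU.2
    · rintro ⟨h1, h2⟩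
      have h3 : 3 * n ≤ W.1 := by
        rw [h1, mul_add, mul_one]
        omega
      obtain ⟨j, hj⟩ := exists_child n W h3
      refine ⟨par n W, ?_, j, hj⟩
      rw [ih]
      refine ⟨?_, by rw [← anc_succ]; exact h2⟩
      rw [par_eq]
      show W.1 - 3 * n = _
      rw [h1, mul_add, mul_one]
      omega

theorem anc_mem {n b j : ℕ} {V W : Idx} (h : W ∈ desc n V (b + j)) : anc n j W ∈ desc n V b := by
  induction j generalizing W with
  | zero => exact h
  | succ j ih =>
    rw [anc_succ]
    exact ih (par_mem_desc h)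

theorem sum_add {M : Type*} [AddCommMonoid M] (n a b : ℕ) (V : Idx) (f : Idx → M) :
    ∑ W ∈ desc n V (a + b), f W = ∑ U ∈ desc n V a, ∑ W ∈ desc n U b, f W := by
  induction b generalizing f with
  | zero => simp [desc]
  | succ b ih =>
    rw [← add_assoc, sum_desc, ih]
    refine Finset.sum_congr rfl fun U _ => ?_
    rw [sum_desc]

/-- the squares of a given level touching a given one are at most nine -/
theorem card_touch (V : Idx) (s : Finset Idx) (h : ∀ W ∈ s, W.1 = V.1 ∧ Touch V W) :
    s.card ≤ 9 := by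
  classical
  let F : ℤ × ℤ → Idx := fun p => (V.1, V.2.1 + p.1, V.2.2 + p.2)
  have h1 : s ⊆ (Finset.Icc (-1 : ℤ) 1 ×ˢ Finset.Icc (-1 : ℤ) 1).image F := by
    intro W hW
    obtain ⟨h2, h3, h4⟩ := h W hW
    rw [abs_le] at h3 h4
    refine Finset.mem_image.2 ⟨(W.2.1 - V.2.1, W.2.2 - V.2.2), ?_, ?_⟩
    · rw [Finset.mem_product, Finset.mem_Icc, Finset.mem_Icc]
      constructor <;> constructor <;> dsimp only <;> omega
    · refine Prod.ext h2.symm (Prod.ext ?_ ?_)
      · show V.2.1 + (W.2.1 - V.2.1) = W.2.1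
        ring
      · show V.2.2 + (W.2.2 - V.2.2) = W.2.2
        ring
  calc s.card ≤ _ := Finset.card_le_card h1
    _ ≤ (Finset.Icc (-1 : ℤ) 1 ×ˢ Finset.Icc (-1 : ℤ) 1).card := Finset.card_image_le
    _ = 9 := by decide

theorem mem_cell (V : Idx) (z : Plane) :
    z ∈ cell V ↔ (side V * V.2.1 ≤ z.1 ∧ z.1 ≤ side V * (V.2.1 + 1)) ∧
      (side V * V.2.2 ≤ z.2 ∧ z.2 ≤ side V * (V.2.2 + 1)) := by
  unfold cell big
  rw [mem_closedBall, Prod.dist_eq, max_le_iff, Real.dist_eq, Real.dist_eq, abs_le, abs_le]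
  have e1 : (ctr V).1 = side V * (V.2.1 + 1 / 2) := rfl
  have e2 : (ctr V).2 = side V * (V.2.2 + 1 / 2) := rfl
  rw [e1, e2]
  constructor
  · rintro ⟨⟨h1, h2⟩, h3, h4⟩
    refine ⟨⟨?_, ?_⟩, ?_, ?_⟩ <;> linarith
  · rintro ⟨⟨h1, h2⟩, h3, h4⟩
    refine ⟨⟨?_, ?_⟩, ?_, ?_⟩ <;> linarith

theorem cell_par {n : ℕ} {V : Idx} (h : 3 * n ≤ V.1) : cell V ⊆ cell (par n V) := by
  exact big_par h le_rfl

private theorem Tree_level {n b j : ℕ} {V W : Idx} (h : W ∈ desc n V (b + (j + 1))) :
    3 * n ≤ W.1 := by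
  have h1 := ((mem_desc_anc n (b + (j + 1)) V W).1 h).1
  rw [h1]
  have h2 : 3 * n * (b + (j + 1)) = 3 * n + 3 * n * (b + j) := by ring
  rw [h2]
  omega

theorem cell_anc {n b j : ℕ} {V W : Idx} (h : W ∈ desc n V (b + j)) :
    cell W ⊆ cell (anc n j W) := by
  induction j generalizing W with
  | zero => exact subset_rfl
  | succ j ih =>
    rw [anc_succ]
    exact (cell_par (Tree_level h)).trans (ih (par_mem_desc h))

/-- distance of the centres -/
theorem ctr_anc {n b j : ℕ} {V W : Idx} (h : W ∈ desc n V (b + j)) :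
    dist (ctr W) (ctr (anc n j W)) ≤ side (anc n j W) / 2 := by
  have h1 : ctr W ∈ cell W := by
    unfold cell big
    refine mem_closedBall_self ?_
    have := side_pos W
    positivity
  have h2 := cell_anc h h1
  unfold cell big at h2
  rw [mem_closedBall, one_mul] at h2
  exact h2

theorem side_anc {n b j : ℕ} {V W : Idx} (h : W ∈ desc n V (b + j)) :
    side (anc n j W) = ((8 : ℝ) ^ n) ^ j * side W := by
  induction j generalizing W with
  | zero => simp [anc_zero]
  | succ j ih =>
    rw [anc_succ, ih (par_mem_desc h)]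
    obtain ⟨i, hi⟩ := exists_child n W (Tree_level h)
    have h1 := side_child n (par n W) i
    rw [← hi] at h1
    rw [h1, pow_succ]
    have h8 : (8 : ℝ) ^ n ≠ 0 := by positivity
    field_simp

theorem side_desc {n b : ℕ} {V W : Idx} (h : W ∈ desc n V b) :
    side W = side V / ((8 : ℝ) ^ n) ^ b := by
  have h1 : W ∈ desc n V (0 + b) := by rwa [zero_add]
  have h2 := side_anc h1
  rw [((mem_desc_anc n b V W).1 h).2] at h2
  have h8 : ((8 : ℝ) ^ n) ^ b ≠ 0 := by positivity
  rw [h2]
  field_simp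

/-- squares of the same level which do not touch are far apart -/
theorem side_le_of_not_touch {V W : Idx} (h : V.1 = W.1) (hT : ¬ Touch V W) {x y : Plane}
    (hx : x ∈ cell V) (hy : y ∈ cell W) : side V ≤ dist x y := by
  have hs := side_pos V
  have hsW : side W = side V := by
    unfold side
    rw [h]
  rw [mem_cell] at hx hy
  rw [hsW] at hy
  have key : ∀ (v w : ℤ) (a b : ℝ), ¬ |v - w| ≤ 1 → side V * v ≤ a → a ≤ side V * (v + 1) →
      side V * w ≤ b → b ≤ side V * (w + 1) → side V ≤ dist a b := by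
    intro v w a b hvw h1 h2 h3 h4
    rw [Real.dist_eq]
    rw [abs_le] at hvw
    rcases le_or_gt v (w - 2) with h5 | h5
    · have h6 : (v : ℝ) + 1 + 1 ≤ w := by
        have : v + 1 + 1 ≤ w := by omega
        exact_mod_cast this
      have h7 : side V * ((v : ℝ) + 1) + side V ≤ side V * w := by
        have := mul_le_mul_of_nonneg_left h6 hs.le
        linarith
      have h8 : b - a ≤ |a - b| := by
        rw [abs_sub_comm]
        exact le_abs_self _
      linarith
    · have h5' : w + 1 + 1 ≤ v := by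
        by_contra hcon
        exact hvw ⟨by omega, by omega⟩
      have h6 : (w : ℝ) + 1 + 1 ≤ v := by exact_mod_cast h5'
      have h7 : side V * ((w : ℝ) + 1) + side V ≤ side V * v := by
        have := mul_le_mul_of_nonneg_left h6 hs.le
        linarith
      have h8 : a - b ≤ |a - b| := le_abs_self _
      linarith
  rw [Prod.dist_eq]
  unfold Touch at hT
  rcases not_and_or.1 hT with h1 | h1
  · exact (key _ _ _ _ h1 hx.1.1 hx.1.2 hy.1.1 hy.1.2).trans (le_max_left _ _)
  · exact (key _ _ _ _ h1 hx.2.1 hx.2.2 hy.2.1 hy.2.2).trans (le_max_right _ _)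

theorem ctr_touch {V W : Idx} (h : V.1 = W.1) (hT : Touch V W) :
    dist (ctr V) (ctr W) ≤ side V := by
  have hs := side_pos V
  have hsW : side W = side V := by
    unfold side
    rw [h]
  have key : ∀ v w : ℤ, |v - w| ≤ 1 →
      |side V * ((v : ℝ) + 1 / 2) - side V * ((w : ℝ) + 1 / 2)| ≤ side V := by
    intro v w hvw
    have h1 : |((v : ℝ)) - w| ≤ 1 := by exact_mod_cast hvw
    have h2 : side V * ((v : ℝ) + 1 / 2) - side V * ((w : ℝ) + 1 / 2) = side V * (v - w) := by
      ring
    rw [h2, abs_mul, abs_of_pos hs]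
    calc side V * |(v : ℝ) - w| ≤ side V * 1 := mul_le_mul_of_nonneg_left h1 hs.le
      _ = side V := mul_one _
  rw [Prod.dist_eq, max_le_iff, Real.dist_eq, Real.dist_eq]
  have e1 : (ctr V).1 = side V * (V.2.1 + 1 / 2) := rfl
  have e2 : (ctr V).2 = side V * (V.2.2 + 1 / 2) := rfl
  have e3 : (ctr W).1 = side W * (W.2.1 + 1 / 2) := rfl
  have e4 : (ctr W).2 = side W * (W.2.2 + 1 / 2) := rfl
  rw [e1, e2, e3, e4, hsW]
  exact ⟨key _ _ hT.1, key _ _ hT.2⟩

theorem touch_of_dist {V W : Idx} (h : V.1 = W.1) {x y : Plane}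
    (hx : x ∈ cell V) (hy : y ∈ cell W) (hxy : dist x y < side V) : Touch V W := by
  by_contra hT
  exact absurd (side_le_of_not_touch h hT hx hy) (not_le.2 hxy)

theorem lastTouch_le (n b : ℕ) (V W : Idx) : lastTouch n b V W ≤ b := by
  classical
  exact Nat.findGreatest_le b

theorem touch_lastTouch {n b : ℕ} {V W T : Idx} (hV : V ∈ desc n T b) (hW : W ∈ desc n T b) :
    Touch (anc n (b - lastTouch n b V W) V) (anc n (b - lastTouch n b V W) W) := by
  classical
  refine Nat.findGreatest_spec (P := fun k => Touch (anc n (b - k) V) (anc n (b - k) W))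
    (Nat.zero_le b) ?_
  rw [mem_desc_anc] at hV hW
  show Touch (anc n (b - 0) V) (anc n (b - 0) W)
  rw [Nat.sub_zero, hV.2, hW.2]
  unfold Touch
  simp

theorem not_touch {n b k : ℕ} {V W : Idx} (h : lastTouch n b V W < k) (hk : k ≤ b) :
    ¬ Touch (anc n (b - k) V) (anc n (b - k) W) := by
  classical
  exact Nat.findGreatest_is_greatest
    (P := fun k => Touch (anc n (b - k) V) (anc n (b - k) W)) h hk

theorem le_lastTouch {n b k : ℕ} {V W : Idx} (hk : k ≤ b)
    (h : Touch (anc n (b - k) V) (anc n (b - k) W)) : k ≤ lastTouch n b V W := by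
  classical
  exact Nat.le_findGreatest (P := fun k => Touch (anc n (b - k) V) (anc n (b - k) W)) hk h

end Pool.Agent.H94.CD
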